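import Pool.Agent.H17.HS.Lur

/-!
# A criterion for locally uniformly rotund renormability, second part
-/

set_option autoImplicit false
open Filter Topology

namespace Pool.Agent.H17.HS

open Pool.Agent.H14WH

section crit

variable {X : Type*} [NormedAddCommGroup X] [NormedSpace ℝ X] {Γ : Type*}

/-- The data of the criterion: a bounded operator into `c₀(Γ)` and finite-dimensional subspaces. -/
structure Data (h : Γ → X →ₗ[ℝ] ℝ) (V : Finset Γ → Submodule ℝ X) : Prop where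
  bound : ∀ γ x, |h γ x| ≤ ‖x‖
  fin : ∀ (x : X) (δ : ℝ), 0 < δ → {γ | δ ≤ |h γ x|}.Finite
  mono : ∀ A B, A ⊆ B → V A ≤ V B
  fd : ∀ A, FiniteDimensional ℝ (V A)
  bot : V ∅ = ⊥
  approx : ∀ (x : X) (ε : ℝ), 0 < ε →
    ∃ A : Finset Γ, (∀ γ ∈ A, h γ x ≠ 0) ∧ ∃ v ∈ V A, ‖x - v‖ < ε

/-- the distance to `V` -/
noncomputable def dst (V : Submodule ℝ X) (x : X) : ℝ := ‖(Submodule.Quotient.mk x : X ⧸ V)‖

theorem dst_nonneg (V : Submodule ℝ X) (x : X) : 0 ≤ dst V x := norm_nonneg _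

theorem dst_le (V : Submodule ℝ X) (x : X) : dst V x ≤ ‖x‖ := Submodule.Quotient.norm_mk_le V x

theorem dst_lt_of_mem (V : Submodule ℝ X) {x v : X} {ε : ℝ} (hv : v ∈ V) (h : ‖x - v‖ < ε) :
    dst V x < ε := by
  have h1 : (Submodule.Quotient.mk x : X ⧸ V) = Submodule.Quotient.mk (x - v) := by
    rw [Submodule.Quotient.eq]
    simpa using hv
  unfold dst
  rw [h1]
  exact (Submodule.Quotient.norm_mk_le V _).trans_lt h

theorem exists_of_dst_lt (V : Submodule ℝ X) {x : X} {ε : ℝ} (h : dst V x < ε) :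
    ∃ v ∈ V, ‖x - v‖ < ε := by
  obtain ⟨m, hm, hlt⟩ := Submodule.Quotient.norm_mk_lt (S := V) (Submodule.Quotient.mk x)
    (show 0 < ε - dst V x by linarith)
  refine ⟨x - m, ?_, ?_⟩
  · rw [Submodule.Quotient.eq] at hm
    have := V.neg_mem hm
    simpa using this
  · have : x - (x - m) = m := by abel
    rw [this]
    unfold dst at hlt
    linarith

theorem isQ_dst (V : Submodule ℝ X) : IsQ fun x => dst V x ^ 2 := by
  apply isQ_sq_of_seminorm (dst_nonneg V)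
  · intro x y
    exact norm_add_le (Submodule.Quotient.mk x : X ⧸ V) (Submodule.Quotient.mk y)
  · intro c x
    show ‖(Submodule.Quotient.mk (c • x) : X ⧸ V)‖ = _
    rw [Submodule.Quotient.mk_smul, norm_smul, Real.norm_eq_abs]
    rfl

theorem isQ_lin (f : X →ₗ[ℝ] ℝ) : IsQ fun x => f x ^ 2 := by
  have h := isQ_sq_of_seminorm (X := X) (p := fun x => |f x|) (fun x => abs_nonneg _)
    (fun x y => by rw [map_add]; exact abs_add_le _ _)
    (fun c x => by rw [map_smul, smul_eq_mul, abs_mul])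
  simpa only [sq_abs] using h

theorem isQ_norm : IsQ fun x : X => ‖x‖ ^ 2 :=
  isQ_sq_of_seminorm norm_nonneg norm_add_le fun c x => by rw [norm_smul, Real.norm_eq_abs]

variable (h : Γ → X →ₗ[ℝ] ℝ) (V : Finset Γ → Submodule ℝ X)

/-- the quadratic pieces -/
noncomputable def QA (c : ℝ) (A : Finset Γ) (x : X) : ℝ := ∑ γ ∈ A, h γ x ^ 2 + c * dst (V A) x ^ 2

theorem isQ_QA {c : ℝ} (hc : 0 ≤ c) (A : Finset Γ) : IsQ (QA h V c A) := by
  have h1 := (isQ_sum A (fun γ x => h γ x ^ 2) fun γ _ => isQ_lin (h γ)).add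
    ((isQ_dst (V A)).const_mul hc)
  exact h1

variable {h V}

theorem Data.sum_le (hD : Data h V) (A : Finset Γ) (x : X) :
    ∑ γ ∈ A, h γ x ^ 2 ≤ A.card * ‖x‖ ^ 2 := by
  have h1 : ∑ γ ∈ A, h γ x ^ 2 ≤ ∑ _γ ∈ A, ‖x‖ ^ 2 := by
    apply Finset.sum_le_sum
    intro γ _
    rw [← sq_abs]
    exact pow_le_pow_left₀ (abs_nonneg _) (hD.bound γ x) 2
  rw [Finset.sum_const, nsmul_eq_mul] at h1
  exact h1

theorem Data.QA_le (hD : Data h V) {c : ℝ} (hc1 : c ≤ 1) {n : ℕ}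
    {A : Finset Γ} (hA : A.card ≤ n) (x : X) : QA h V c A x ≤ (n + 1) * ‖x‖ ^ 2 := by
  unfold QA
  have h1 := hD.sum_le A x
  have h2 : dst (V A) x ^ 2 ≤ ‖x‖ ^ 2 := pow_le_pow_left₀ (dst_nonneg _ _) (dst_le _ _) 2
  have h3 : c * dst (V A) x ^ 2 ≤ 1 * ‖x‖ ^ 2 := by
    calc c * dst (V A) x ^ 2 ≤ 1 * dst (V A) x ^ 2 := mul_le_mul_of_nonneg_right hc1 (sq_nonneg _)
      _ ≤ 1 * ‖x‖ ^ 2 := by linarith
  have h4 : (A.card : ℝ) * ‖x‖ ^ 2 ≤ n * ‖x‖ ^ 2 :=
    mul_le_mul_of_nonneg_right (by exact_mod_cast hA) (sq_nonneg _)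
  linarith

variable (h V)

/-- the supremum over the sets with at most `n` elements -/
noncomputable def PP (n : ℕ) (c : ℝ) (x : X) : ℝ := ⨆ A : {A : Finset Γ // A.card ≤ n}, QA h V c A.1 x

instance (n : ℕ) : Nonempty {A : Finset Γ // A.card ≤ n} := ⟨⟨∅, by simp⟩⟩

variable {h V}

theorem Data.bdd (hD : Data h V) {c : ℝ} (hc1 : c ≤ 1) (n : ℕ) (x : X) :
    BddAbove (Set.range fun A : {A : Finset Γ // A.card ≤ n} => QA h V c A.1 x) := by
  refine ⟨(n + 1) * ‖x‖ ^ 2, ?_⟩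
  rintro _ ⟨A, rfl⟩
  exact hD.QA_le hc1 A.2 x

theorem Data.isQ_PP (hD : Data h V) {c : ℝ} (hc : 0 ≤ c) (hc1 : c ≤ 1) (n : ℕ) :
    IsQ (PP h V n c) :=
  isQ_iSup (fun A : {A : Finset Γ // A.card ≤ n} => QA h V c A.1) (fun A => isQ_QA h V hc A.1)
    (hD.bdd hc1 n)

theorem Data.PP_le (hD : Data h V) {c : ℝ} (hc1 : c ≤ 1) (n : ℕ) (x : X) :
    PP h V n c x ≤ (n + 1) * ‖x‖ ^ 2 := ciSup_le fun A => hD.QA_le hc1 A.2 x

/-- top level sets -/
theorem Data.exists_top (hD : Data h V) (x : X) (A₀ : Finset Γ) (h₀ : ∀ γ ∈ A₀, h γ x ≠ 0) :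
    ∃ (A : Finset Γ) (g : ℝ), A₀ ⊆ A ∧ 0 < g ∧ ∀ B : Finset Γ, B.card ≤ A.card → B ≠ A →
      ∑ γ ∈ B, h γ x ^ 2 ≤ ∑ γ ∈ A, h γ x ^ 2 - g := by
  classical
  obtain ⟨δ, hδ, hδA⟩ : ∃ δ : ℝ, 0 < δ ∧ ∀ γ ∈ A₀, δ ≤ |h γ x| := by
    clear hD
    induction A₀ using Finset.induction_on with
    | empty => exact ⟨1, one_pos, by simp⟩
    | insert a s has ih =>
      obtain ⟨δ, hδ, hδs⟩ := ih fun γ hγ => h₀ γ (Finset.mem_insert_of_mem hγ)
      have ha : 0 < |h a x| := abs_pos.2 (h₀ a (Finset.mem_insert_self _ _))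
      refine ⟨min δ |h a x|, lt_min hδ ha, ?_⟩
      intro γ hγ
      rcases Finset.mem_insert.1 hγ with rfl | hγ
      · exact min_le_right _ _
      · exact (min_le_left _ _).trans (hδs γ hγ)
  have hfin := hD.fin x δ hδ
  have hfin2 := hD.fin x (δ / 2) (by linarith)
  obtain ⟨δ₁, hδ₁0, hδ₁, hδ₁A⟩ : ∃ δ₁ : ℝ, 0 ≤ δ₁ ∧ δ₁ < δ ∧ ∀ γ, |h γ x| < δ → |h γ x| ≤ δ₁ := by
    by_cases hne : (hfin2.toFinset.filter fun γ => |h γ x| < δ).Nonempty
    · obtain ⟨γ₀, hγ₀, hmax⟩ := Finset.exists_max_image _ (fun γ => |h γ x|) hne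
      rw [Finset.mem_filter] at hγ₀
      refine ⟨|h γ₀ x|, abs_nonneg _, hγ₀.2, ?_⟩
      intro γ hγ
      by_cases h2 : δ / 2 ≤ |h γ x|
      · exact hmax γ (Finset.mem_filter.2 ⟨hfin2.mem_toFinset.2 h2, hγ⟩)
      · push Not at h2
        have h3 : δ / 2 ≤ |h γ₀ x| := hfin2.mem_toFinset.1 hγ₀.1
        linarith
    · refine ⟨δ / 2, by linarith, by linarith, ?_⟩
      intro γ hγ
      by_contra h2
      push Not at h2
      exact hne ⟨γ, Finset.mem_filter.2 ⟨hfin2.mem_toFinset.2 h2.le, hγ⟩⟩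
  refine ⟨hfin.toFinset, δ ^ 2 - δ₁ ^ 2, ?_, ?_, ?_⟩
  · intro γ hγ
    exact hfin.mem_toFinset.2 (hδA γ hγ)
  · nlinarith
  · intro B hcard hne
    set A := hfin.toFinset with hA
    have e1 : ∑ γ ∈ B, h γ x ^ 2 = ∑ γ ∈ B ∩ A, h γ x ^ 2 + ∑ γ ∈ B \ A, h γ x ^ 2 := by
      rw [← Finset.sum_union]
      · congr 1
        rw [Finset.union_comm, Finset.sdiff_union_inter]
      · exact Finset.disjoint_left.2 fun a ha ha' => (Finset.mem_sdiff.1 ha').2 (Finset.mem_inter.1 ha).2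
    have e2 : ∑ γ ∈ A, h γ x ^ 2 = ∑ γ ∈ B ∩ A, h γ x ^ 2 + ∑ γ ∈ A \ B, h γ x ^ 2 := by
      rw [← Finset.sum_union]
      · congr 1
        rw [Finset.union_comm, Finset.inter_comm, Finset.sdiff_union_inter]
      · exact Finset.disjoint_left.2 fun a ha ha' => (Finset.mem_sdiff.1 ha').2 (Finset.mem_inter.1 ha).1
    have hc : (B \ A).card ≤ (A \ B).card := by
      have h1 := Finset.card_sdiff_add_card_inter B A
      have h2 := Finset.card_sdiff_add_card_inter A B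
      rw [Finset.inter_comm A B] at h2
      omega
    have hpos : 1 ≤ (A \ B).card := by
      by_contra hcon
      have h0 : (A \ B).card = 0 := by omega
      have h1 : A ⊆ B := Finset.sdiff_eq_empty_iff_subset.1 (Finset.card_eq_zero.1 h0)
      exact hne (Finset.eq_of_subset_of_card_le h1 hcard).symm
    have h1 : ∑ γ ∈ B \ A, h γ x ^ 2 ≤ (B \ A).card * δ₁ ^ 2 := by
      rw [← nsmul_eq_mul]
      apply Finset.sum_le_card_nsmul
      intro γ hγ
      have h2 : ¬ δ ≤ |h γ x| := fun h3 => (Finset.mem_sdiff.1 hγ).2 (hfin.mem_toFinset.2 h3)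
      push Not at h2
      rw [← sq_abs]
      exact pow_le_pow_left₀ (abs_nonneg _) (hδ₁A γ h2) 2
    have h2 : ((A \ B).card : ℝ) * δ ^ 2 ≤ ∑ γ ∈ A \ B, h γ x ^ 2 := by
      rw [← nsmul_eq_mul]
      apply Finset.card_nsmul_le_sum
      intro γ hγ
      have h2 : δ ≤ |h γ x| := hfin.mem_toFinset.1 (Finset.mem_sdiff.1 hγ).1
      rw [← sq_abs (h γ x)]
      exact pow_le_pow_left₀ hδ.le h2 2
    have h3 : ((B \ A).card : ℝ) * δ₁ ^ 2 ≤ (A \ B).card * δ₁ ^ 2 :=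
      mul_le_mul_of_nonneg_right (by exact_mod_cast hc) (sq_nonneg _)
    have h4 : (1 : ℝ) ≤ (A \ B).card := by exact_mod_cast hpos
    have h5 : 0 ≤ δ ^ 2 - δ₁ ^ 2 := by nlinarith
    have h6 : δ ^ 2 - δ₁ ^ 2 ≤ (A \ B).card * (δ ^ 2 - δ₁ ^ 2) := by nlinarith
    rw [e1, e2]
    linarith

/-- what one gets from the defects -/
theorem Data.control (hD : Data h V) (x : X) (u : ℕ → X)
    (hd : ∀ n k : ℕ, Tendsto (fun i => defect (PP h V n (1 / ((k : ℝ) + 1))) x (u i)) atTop (𝓝 0))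
    (A₀ : Finset Γ) (h₀ : ∀ γ ∈ A₀, h γ x ≠ 0) :
    ∃ A : Finset Γ, A₀ ⊆ A ∧ (∀ γ ∈ A, Tendsto (fun i => h γ (u i)) atTop (𝓝 (h γ x))) ∧
      Tendsto (fun i => dst (V A) (u i)) atTop (𝓝 (dst (V A) x)) := by
  classical
  obtain ⟨A, g, hA₀, hg, hgap⟩ := hD.exists_top x A₀ h₀
  obtain ⟨k, hk⟩ : ∃ k : ℕ, 1 / ((k : ℝ) + 1) * ‖x‖ ^ 2 < g / 2 := by
    obtain ⟨k, hk⟩ := exists_nat_gt (‖x‖ ^ 2 / (g / 2))
    refine ⟨k, ?_⟩
    rw [div_lt_iff₀ (by linarith)] at hk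
    rw [one_div, inv_mul_lt_iff₀ (by positivity)]
    nlinarith
  set c : ℝ := 1 / ((k : ℝ) + 1) with hc
  have hc0 : 0 < c := by rw [hc]; positivity
  have hc1 : c ≤ 1 := by
    rw [hc, div_le_one (by positivity)]
    have : (0 : ℝ) ≤ k := by positivity
    linarith
  obtain ⟨i, hi1, hi2⟩ := exists_almost_max
    (fun B : {B : Finset Γ // B.card ≤ A.card} => QA h V c B.1) (fun B => isQ_QA h V hc0.le B.1)
    (hD.bdd hc1 A.card) x u (hd A.card k)
  have hPA : QA h V c A x ≤ PP h V A.card c x :=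
    le_ciSup (hD.bdd hc1 A.card x) ⟨A, le_refl _⟩
  have hev : ∀ᶠ n in atTop, (i n).1 = A := by
    have h1 : ∀ᶠ n in atTop, PP h V A.card c x - g / 2 < QA h V c (i n).1 x :=
      hi2.eventually (lt_mem_nhds (show PP h V A.card c x - g / 2 < _ by
        show PP h V A.card c x - g / 2 < PP h V A.card c x
        linarith))
    filter_upwards [h1] with n hn
    by_contra hne
    have h2 := hgap (i n).1 (i n).2 hne
    have h3 : QA h V c (i n).1 x ≤ ∑ γ ∈ A, h γ x ^ 2 - g + c * ‖x‖ ^ 2 := by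
      unfold QA
      have h4 : dst (V (i n).1) x ^ 2 ≤ ‖x‖ ^ 2 :=
        pow_le_pow_left₀ (dst_nonneg _ _) (dst_le _ _) 2
      have h5 := mul_le_mul_of_nonneg_left h4 hc0.le
      linarith
    have h6 : ∑ γ ∈ A, h γ x ^ 2 ≤ QA h V c A x := by
      unfold QA
      have := mul_nonneg hc0.le (sq_nonneg (dst (V A) x))
      linarith
    linarith
  have hdA : Tendsto (fun n => defect (QA h V c A) x (u n)) atTop (𝓝 0) := by
    refine hi1.congr' ?_
    filter_upwards [hev] with n hn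
    rw [hn]
  -- split the defect
  have hsplit : ∀ n, defect (QA h V c A) x (u n) =
      ∑ γ ∈ A, (h γ x - h γ (u n)) ^ 2 + c * defect (fun y => dst (V A) y ^ 2) x (u n) := by
    intro n
    unfold defect QA
    have h1 : ∑ γ ∈ A, (h γ x - h γ (u n)) ^ 2 =
        2 * ∑ γ ∈ A, h γ x ^ 2 + 2 * ∑ γ ∈ A, h γ (u n) ^ 2 - ∑ γ ∈ A, h γ (x + u n) ^ 2 := by
      rw [Finset.mul_sum, Finset.mul_sum, ← Finset.sum_add_distrib, ← Finset.sum_sub_distrib]
      apply Finset.sum_congr rfl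
      intro γ _
      rw [map_add]
      ring
    rw [h1]
    ring
  have hdn : ∀ n, 0 ≤ defect (fun y => dst (V A) y ^ 2) x (u n) := fun n =>
    (isQ_dst (V A)).defect_nonneg _ _
  refine ⟨A, hA₀, ?_, ?_⟩
  · intro γ hγ
    have h1 : Tendsto (fun n => (h γ x - h γ (u n)) ^ 2) atTop (𝓝 0) := by
      refine squeeze_zero (fun n => sq_nonneg _) (fun n => ?_) hdA
      rw [hsplit]
      have h2 : (h γ x - h γ (u n)) ^ 2 ≤ ∑ γ ∈ A, (h γ x - h γ (u n)) ^ 2 :=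
        Finset.single_le_sum (f := fun γ => (h γ x - h γ (u n)) ^ 2) (fun _ _ => sq_nonneg _) hγ
      have h3 := mul_nonneg hc0.le (hdn n)
      linarith
    have h2 : Tendsto (fun n => |h γ x - h γ (u n)|) atTop (𝓝 0) := by
      have h3 := h1.sqrt
      simpa [Real.sqrt_sq_eq_abs] using h3
    have h4 : Tendsto (fun n => h γ x - h γ (u n)) atTop (𝓝 0) :=
      (tendsto_zero_iff_abs_tendsto_zero _).2 h2
    have h5 : Tendsto (fun n => h γ x - (h γ x - h γ (u n))) atTop (𝓝 (h γ x - 0)) :=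
      tendsto_const_nhds.sub h4
    simpa using h5
  · have h0 : Tendsto (fun n => c * defect (fun y => dst (V A) y ^ 2) x (u n)) atTop (𝓝 0) := by
      refine squeeze_zero (fun n => mul_nonneg hc0.le (hdn n)) (fun n => ?_) hdA
      rw [hsplit]
      have h2 : 0 ≤ ∑ γ ∈ A, (h γ x - h γ (u n)) ^ 2 := Finset.sum_nonneg fun _ _ => sq_nonneg _
      linarith
    have h0' : Tendsto (fun n => defect (fun y => dst (V A) y ^ 2) x (u n)) atTop (𝓝 0) := by
      have h1 := h0.const_mul c⁻¹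
      rw [mul_zero] at h1
      refine h1.congr fun n => ?_
      rw [← mul_assoc, inv_mul_cancel₀ hc0.ne', one_mul]
    have h1 : Tendsto (fun n => (dst (V A) x - dst (V A) (u n)) ^ 2) atTop (𝓝 0) := by
      refine squeeze_zero (fun n => sq_nonneg _) (fun n => ?_) h0'
      unfold defect
      simp only
      have h2 : dst (V A) (x + u n) ≤ dst (V A) x + dst (V A) (u n) :=
        norm_add_le (Submodule.Quotient.mk x : X ⧸ V A) (Submodule.Quotient.mk (u n))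
      have h3 : dst (V A) (x + u n) ^ 2 ≤ (dst (V A) x + dst (V A) (u n)) ^ 2 :=
        pow_le_pow_left₀ (dst_nonneg _ _) h2 2
      nlinarith
    have h2 : Tendsto (fun n => |dst (V A) x - dst (V A) (u n)|) atTop (𝓝 0) := by
      have h3 := h1.sqrt
      simpa [Real.sqrt_sq_eq_abs] using h3
    have h4 : Tendsto (fun n => dst (V A) x - dst (V A) (u n)) atTop (𝓝 0) :=
      (tendsto_zero_iff_abs_tendsto_zero _).2 h2
    have h5 : Tendsto (fun n => dst (V A) x - (dst (V A) x - dst (V A) (u n))) atTop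
        (𝓝 (dst (V A) x - 0)) := tendsto_const_nhds.sub h4
    simpa using h5

end crit

end Pool.Agent.H17.HS
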