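import Pool.Agent.H17.HS.Op

/-!
# Detection of the nodes at which a function branches or jumps
-/

set_option autoImplicit false
open Filter Topology Set
open scoped ZeroAtInfty

namespace Pool.Agent.H17.HS

open Pool.Agent.H14WH

section det

variable {T : Type*} [PartialOrder T] [τ : TopologicalSpace T]

omit τ in
theorem choose_q (ρ : T → ℝ) (hρ : Monotone ρ) (t : T)
    (hgood : ∃ η : ℝ, 0 < η ∧ {u | t ⋖ u ∧ ρ u < ρ t + η}.Finite) :
    ∃ q : ℚ, ρ t ≤ q ∧ (Suc ρ q t).Finite ∧ ∀ u ∈ Suc ρ q t, ρ u = ρ t := by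
  classical
  obtain ⟨η, hη, hfin⟩ := hgood
  obtain ⟨η', hη', hle, hgap⟩ : ∃ η' : ℝ, 0 < η' ∧ η' ≤ η ∧
      ∀ u ∈ hfin.toFinset, ρ u ≤ ρ t ∨ ρ t + η' ≤ ρ u := by
    generalize hfin.toFinset = S
    clear hfin
    induction S using Finset.induction_on with
    | empty => exact ⟨η, hη, le_refl _, by simp⟩
    | insert a s has ih =>
      obtain ⟨η', h1, h2, h3⟩ := ih
      by_cases ha : ρ a ≤ ρ t
      · refine ⟨η', h1, h2, ?_⟩
        intro u hu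
        rcases Finset.mem_insert.1 hu with rfl | hu
        · exact Or.inl ha
        · exact h3 u hu
      · push Not at ha
        refine ⟨min η' (ρ a - ρ t), lt_min h1 (by linarith), (min_le_left _ _).trans h2, ?_⟩
        intro u hu
        rcases Finset.mem_insert.1 hu with rfl | hu
        · right
          have := min_le_right η' (ρ u - ρ t)
          linarith
        · rcases h3 u hu with h4 | h4
          · exact Or.inl h4
          · right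
            have := min_le_left η' (ρ a - ρ t)
            linarith
  obtain ⟨q, hq1, hq2⟩ := exists_rat_btwn (show ρ t < ρ t + η' by linarith)
  have key : ∀ u ∈ Suc ρ q t, u ∈ hfin.toFinset := by
    rintro u ⟨hu1, hu2⟩
    refine hfin.mem_toFinset.2 ⟨hu1, ?_⟩
    have : ρ u ≤ q := hu2
    linarith
  refine ⟨q, hq1.le, hfin.subset fun u hu => hfin.mem_toFinset.1 (key u hu), ?_⟩
  rintro u hu
  rcases hgap u (key u hu) with h | h
  · exact le_antisymm h (hρ hu.1.le)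
  · have := hu.2
    linarith

/-- the detected nodes -/
def NN (ρ : T → ℝ) (f : C₀(T, ℝ)) : Set T :=
  {t | (∃ q, HF ρ q t f ≠ 0) ∨ (∃ q, EF ρ q t f ≠ 0) ∨ ∃ u, t ⋖ u ∧ ∃ q, EF ρ q u f ≠ 0}

theorem sum_of_not (ρ : T → ℝ) (hρ : Monotone ρ) {t : T}
    (hgood : ∃ η : ℝ, 0 < η ∧ {u | t ⋖ u ∧ ρ u < ρ t + η}.Finite) (f : C₀(T, ℝ))
    (h : ∀ q, HF ρ q t f = 0) :
    ∃ S : Finset T, (∀ u, u ∈ S ↔ t ⋖ u ∧ ρ u = ρ t) ∧ f t = ∑ u ∈ S, f u := by
  classical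
  obtain ⟨q, hq1, hfin, hq2⟩ := choose_q ρ hρ t hgood
  refine ⟨hfin.toFinset, ?_, ?_⟩
  · intro u
    rw [hfin.mem_toFinset]
    constructor
    · intro hu
      exact ⟨hu.1, hq2 u hu⟩
    · rintro ⟨h1, h2⟩
      exact ⟨h1, by rw [h2]; exact hq1⟩
  · have h1 := h q
    unfold HF at h1
    rw [dif_pos ⟨hq1, hfin⟩, LinearMap.smul_apply, LinearMap.sub_apply, _root_.LinearMap.sum_apply,
      smul_eq_mul] at h1
    rcases mul_eq_zero.1 h1 with h2 | h2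
    · exfalso
      have : (0 : ℝ) < 1 / ((hfin.toFinset.card : ℝ) + 1) := by positivity
      exact absurd h2 this.ne'
    · have h3 := sub_eq_zero.1 h2
      exact h3

theorem EF_of (ρ : T → ℝ) {u : T} {c : ℝ} (hc : c < ρ u) (hs : ∀ s, s < u → ρ s ≤ c)
    (f : C₀(T, ℝ)) (hf : f u ≠ 0) : ∃ q, EF ρ q u f ≠ 0 := by
  classical
  obtain ⟨q, hq1, hq2⟩ := exists_rat_btwn hc
  refine ⟨q, ?_⟩
  unfold EF
  rw [if_pos ⟨hq2, fun s hs' => (hs s hs').trans hq1.le⟩]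
  exact hf

variable (hT : IsHausdorffTree T) (hτ : IsTreeTopology T τ) (ρ : T → ℝ) (hρ : Monotone ρ)
  (hE : ∀ E : Set T, EverBranching E → ∃ s ∈ E, ∃ t ∈ E, ρ s ≠ ρ t)
  (hgood : ∀ t, ∃ η : ℝ, 0 < η ∧ {u | t ⋖ u ∧ ρ u < ρ t + η}.Finite)

include hT hτ hρ hE hgood

theorem detect (f : C₀(T, ℝ)) {v : T} (hv : f v ≠ 0) : ∃ γ ∈ NN ρ f, v ≤ γ := by
  classical
  by_contra hcon
  push Not at hcon
  let E : Set T := {s | v ≤ s ∧ ρ s = ρ v ∧ f s ≠ 0}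
  have hvE : v ∈ E := ⟨le_refl v, rfl, hv⟩
  have hnE : ¬ EverBranching E := by
    intro h
    obtain ⟨s, hs, t, ht, hne⟩ := hE E h
    exact hne (hs.2.1.trans ht.2.1.symm)
  have hex : ∃ s ∈ E, ∀ a ∈ E, ∀ b ∈ E, s ≤ a → s ≤ b → a ≤ b ∨ b ≤ a := by
    by_contra h
    push Not at h
    apply hnE
    refine ⟨⟨v, hvE⟩, fun s hs => ?_⟩
    obtain ⟨a, ha, b, hb, h1, h2, h3, h4⟩ := h s hs
    exact ⟨a, ha, b, hb, h1, h2, h3, h4⟩
  obtain ⟨s, hsE, hs⟩ := hex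
  let K : Set T := {x | s ≤ x ∧ f x = f s ∧ ρ x = ρ s}
  have hsK : s ∈ K := ⟨le_refl s, rfl, rfl⟩
  have hclosed : IsClosed {x | f x = f s} := isClosed_eq f.continuous continuous_const
  have hKsub : closure K ⊆ {x | f x = f s} :=
    closure_minimal (fun x hx => hx.2.1) hclosed
  have hcomp : IsCompact (closure K) := by
    refine (isCompact_ge f (abs_pos.2 hsE.2.2)).of_isClosed_subset isClosed_closure ?_
    intro x hx
    have h1 : f x = f s := hKsub hx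
    show |f s| ≤ |f x|
    rw [h1]
  obtain ⟨x, hxK, hsx, hmax⟩ := exists_maximal hτ hcomp (subset_closure hsK)
  have hfx : f x = f s := hKsub hxK
  have hfx0 : f x ≠ 0 := by
    rw [hfx]
    exact hsE.2.2
  have hvx : v ≤ x := hsE.1.trans hsx
  have hρx : ρ x = ρ s := by
    refine le_antisymm ?_ (hρ hsx)
    by_contra hlt
    push Not at hlt
    have h1 : ∀ r, r < x → ρ r ≤ ρ s := by
      intro r hr
      have h2 : Set.Ioc r x ∈ 𝓝 x := (isOpen_Ioc' hτ r x).mem_nhds ⟨hr, le_refl x⟩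
      obtain ⟨z, hz1, hz2⟩ := mem_closure_iff_nhds.1 hxK _ h2
      rw [← hz2.2.2]
      exact hρ hz1.1.le
    exact hcon x (Or.inr (Or.inl (EF_of ρ hlt h1 f hfx0))) hvx
  have hnot : ∀ q, HF ρ q x f = 0 := by
    intro q
    by_contra hq
    exact hcon x (Or.inl ⟨q, hq⟩) hvx
  obtain ⟨S, hS, hsum⟩ := sum_of_not ρ hρ (hgood x) f hnot
  obtain ⟨u, huS, hu0⟩ : ∃ u ∈ S, f u ≠ 0 := by
    apply Finset.exists_ne_zero_of_sum_ne_zero
    rw [← hsum]
    exact hfx0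
  have huE : ∀ w ∈ S, f w ≠ 0 → w ∈ E := by
    intro w hw hw0
    obtain ⟨h1, h2⟩ := (hS w).1 hw
    exact ⟨hvx.trans h1.le, by rw [h2, hρx, hsE.2.1], hw0⟩
  have hone : ∀ w ∈ S, w ≠ u → f w = 0 := by
    intro w hw hne
    by_contra hw0
    obtain ⟨h1, -⟩ := (hS w).1 hw
    obtain ⟨h2, -⟩ := (hS u).1 huS
    rcases hs w (huE w hw hw0) u (huE u huS hu0) (hsx.trans h1.le) (hsx.trans h2.le) with h | h
    · exact hne (cover_unique hT h1 h2 h (le_refl u))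
    · exact hne (cover_unique hT h1 h2 (le_refl w) h)
  rw [Finset.sum_eq_single_of_mem u huS hone] at hsum
  obtain ⟨h1, h2⟩ := (hS u).1 huS
  have huK : u ∈ K := ⟨hsx.trans h1.le, by rw [← hsum, hfx], by rw [h2, hρx]⟩
  exact absurd h1.lt (not_lt_of_ge (hmax u (subset_closure huK) h1.le))

theorem meet_of_two (f : C₀(T, ℝ)) {β u u' : T} (hu : β ⋖ u) (hu' : β ⋖ u') (hne : u ≠ u')
    (h : f u ≠ 0) (h' : f u' ≠ 0) : β ∈ Meets (NN ρ f) := by
  obtain ⟨γ, hγ, hγu⟩ := detect hT hτ ρ hρ hE hgood f h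
  obtain ⟨γ', hγ', hγu'⟩ := detect hT hτ ρ hρ hE hgood f h'
  refine ⟨γ, hγ, γ', hγ', fun x => ⟨fun hx => ⟨hx.trans (hu.le.trans hγu),
    hx.trans (hu'.le.trans hγu')⟩, fun hx => ?_⟩⟩
  have hux : ¬ u ≤ x := fun h1 => hne (cover_unique hT hu hu' (h1.trans hx.2) hγu')
  rcases hT.chain γ x u hx.1 hγu with h1 | h1
  · exact le_of_lt_cover hT hu (lt_of_le_of_ne h1 fun h2 => hux h2.symm.le)
  · exact absurd h1 hux

theorem meet_of_end (f : C₀(T, ℝ)) {β : T} (h0 : f β ≠ 0) (h : ∀ u, β ⋖ u → f u ≠ f β) :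
    β ∈ Meets (NN ρ f) := by
  classical
  by_cases hH : ∃ q, HF ρ q β f ≠ 0
  · exact subset_Meets _ (Or.inl hH)
  · push Not at hH
    obtain ⟨S, hS, hsum⟩ := sum_of_not ρ hρ (hgood β) f hH
    obtain ⟨u, huS, hu0⟩ : ∃ u ∈ S, f u ≠ 0 := by
      apply Finset.exists_ne_zero_of_sum_ne_zero
      rw [← hsum]
      exact h0
    by_cases hall : ∀ w ∈ S, w ≠ u → f w = 0
    · rw [Finset.sum_eq_single_of_mem u huS hall] at hsum
      exact absurd hsum.symm (h u ((hS u).1 huS).1)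
    · push Not at hall
      obtain ⟨w, hw, hwu, hw0⟩ := hall
      exact meet_of_two hT hτ ρ hρ hE hgood f ((hS w).1 hw).1 ((hS u).1 huS).1 hwu hw0 hu0

theorem meet_of_jump (f : C₀(T, ℝ)) {β u : T} (hu : β ⋖ u) (hne : f β ≠ f u) (h0 : f u ≠ 0) :
    β ∈ Meets (NN ρ f) := by
  classical
  by_cases hlt : ρ β < ρ u
  · apply subset_Meets
    refine Or.inr (Or.inr ⟨u, hu, EF_of ρ hlt ?_ f h0⟩)
    intro s hs
    exact hρ (le_of_lt_cover hT hu hs)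
  · have heq : ρ u = ρ β := le_antisymm (not_lt.1 hlt) (hρ hu.le)
    by_cases hH : ∃ q, HF ρ q β f ≠ 0
    · exact subset_Meets _ (Or.inl hH)
    · push Not at hH
      obtain ⟨S, hS, hsum⟩ := sum_of_not ρ hρ (hgood β) f hH
      have huS : u ∈ S := (hS u).2 ⟨hu, heq⟩
      by_cases hall : ∀ w ∈ S, w ≠ u → f w = 0
      · rw [Finset.sum_eq_single_of_mem u huS hall] at hsum
        exact absurd hsum hne
      · push Not at hall
        obtain ⟨w, hw, hwu, hw0⟩ := hall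
        exact meet_of_two hT hτ ρ hρ hE hgood f ((hS w).1 hw).1 hu hwu hw0 h0

theorem separate_lt (f : C₀(T, ℝ)) {s t : T} (hst : s < t) (hne : f s ≠ f t) :
    ∃ c ∈ Meets (NN ρ f), s ≤ c ∧ ¬ t ≤ c := by
  obtain ⟨x, ⟨hsx, hxt, hfx⟩, hmin⟩ := hT.wf.has_min {x | s ≤ x ∧ x ≤ t ∧ f x ≠ f s}
    ⟨t, hst.le, le_refl t, fun h => hne h.symm⟩
  have hlt : s < x := lt_of_le_of_ne hsx fun h => hfx (by rw [h])
  have hbelow : ∀ y, s ≤ y → y < x → f y = f s := by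
    intro y hy hyx
    by_contra h
    exact hmin y ⟨hy, hyx.le.trans hxt, h⟩ hyx
  obtain ⟨β, hβ⟩ : ∃ β, β ⋖ x := by
    by_contra h
    push Not at h
    exact hfx (limit_eq hT hτ f.continuous hlt h hbelow)
  have hsβ : s ≤ β := le_of_lt_cover hT hβ hlt
  have hfβ : f β = f s := hbelow β hsβ hβ.lt
  have htβ : ¬ t ≤ β := fun h => absurd (lt_of_lt_of_le hβ.lt (hxt.trans h)) (lt_irrefl β)
  by_cases hx0 : f x = 0
  · have hβ0 : f β ≠ 0 := by
      rw [hfβ]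
      intro h
      exact hfx (hx0.trans h.symm)
    by_cases hall : ∀ u, β ⋖ u → f u ≠ f β
    · exact ⟨β, meet_of_end hT hτ ρ hρ hE hgood f hβ0 hall, hsβ, htβ⟩
    · push Not at hall
      obtain ⟨u, hu, hfu⟩ := hall
      obtain ⟨γ, hγ, huγ⟩ := detect hT hτ ρ hρ hE hgood f (v := u) (by rw [hfu]; exact hβ0)
      refine ⟨γ, subset_Meets _ hγ, hsβ.trans (hu.le.trans huγ), ?_⟩
      intro htγ
      have h1 : x = u := cover_unique hT hβ hu (hxt.trans htγ) huγ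
      rw [← h1, hx0] at hfu
      exact hβ0 hfu.symm
  · refine ⟨β, meet_of_jump hT hτ ρ hρ hE hgood f hβ ?_ hx0, hsβ, htβ⟩
    rw [hfβ]
    exact fun h => hfx h.symm

theorem separate (f : C₀(T, ℝ)) {s t : T} (hne : f s ≠ f t) :
    ∃ c ∈ Meets (NN ρ f), (s ≤ c ∧ ¬ t ≤ c) ∨ (t ≤ c ∧ ¬ s ≤ c) := by
  have hst : s ≠ t := fun h => hne (by rw [h])
  have aux : ∀ γ ∈ NN ρ f, s ≤ γ → t ≤ γ →
      ∃ c ∈ Meets (NN ρ f), (s ≤ c ∧ ¬ t ≤ c) ∨ (t ≤ c ∧ ¬ s ≤ c) := by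
    intro γ _ h1 h2
    rcases hT.chain γ s t h1 h2 with h | h
    · obtain ⟨c, hc, h3⟩ := separate_lt hT hτ ρ hρ hE hgood f (lt_of_le_of_ne h hst) hne
      exact ⟨c, hc, Or.inl h3⟩
    · obtain ⟨c, hc, h3⟩ := separate_lt hT hτ ρ hρ hE hgood f (lt_of_le_of_ne h hst.symm) hne.symm
      exact ⟨c, hc, Or.inr h3⟩
  by_cases hs0 : f s = 0
  · have ht0 : f t ≠ 0 := fun h => hne (hs0.trans h.symm)
    obtain ⟨γ, hγ, htγ⟩ := detect hT hτ ρ hρ hE hgood f ht0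
    by_cases hsγ : s ≤ γ
    · exact aux γ hγ hsγ htγ
    · exact ⟨γ, subset_Meets _ hγ, Or.inr ⟨htγ, hsγ⟩⟩
  · obtain ⟨γ, hγ, hsγ⟩ := detect hT hτ ρ hρ hE hgood f hs0
    by_cases htγ : t ≤ γ
    · exact aux γ hγ hsγ htγ
    · exact ⟨γ, subset_Meets _ hγ, Or.inl ⟨hsγ, htγ⟩⟩

theorem approx_NN (f : C₀(T, ℝ)) {ε : ℝ} (hε : 0 < ε) :
    ∃ g ∈ WW hT hτ (NN ρ f), ‖f - g‖ < ε := by
  have hid : ∀ c, Idem (path hT hτ c) := by
    intro c x
    by_cases hx : x ≤ c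
    · exact Or.inr (path_apply_of_le hT hτ hx)
    · exact Or.inl (path_apply_of_not_le hT hτ hx)
  obtain ⟨g, hg, hgf⟩ := exists_approx (WW hT hτ (NN ρ f)) (WW_mul hT hτ _) f (ε := ε / 2)
    (by
      intro s hs
      obtain ⟨γ, hγ, hsγ⟩ := detect hT hτ ρ hρ hE hgood f hs
      exact ⟨path hT hτ γ, Submodule.subset_span ⟨γ, subset_Meets _ hγ, rfl⟩, hid γ,
        path_apply_of_le hT hτ hsγ⟩)
    (by
      intro s t hst
      obtain ⟨c, hc, h | h⟩ := separate hT hτ ρ hρ hE hgood f hst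
      · refine ⟨path hT hτ c, Submodule.subset_span ⟨c, hc, rfl⟩, hid c, ?_⟩
        rw [path_apply_of_le hT hτ h.1, path_apply_of_not_le hT hτ h.2]
        norm_num
      · refine ⟨path hT hτ c, Submodule.subset_span ⟨c, hc, rfl⟩, hid c, ?_⟩
        rw [path_apply_of_le hT hτ h.1, path_apply_of_not_le hT hτ h.2]
        norm_num)
    (by linarith)
  refine ⟨g, hg, ?_⟩
  have h3 : ‖f - g‖ ≤ ε / 2 := norm_le_of _ (by linarith) hgf
  linarith

end det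

end Pool.Agent.H17.HS
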