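import Pool.Agent.H17.HS.Crit

/-!
# A criterion for locally uniformly rotund renormability, third part
-/

set_option autoImplicit false
open Filter Topology

namespace Pool.Agent.H17.HS

open Pool.Agent.H14WH

section norm

variable {X : Type*} [NormedAddCommGroup X] [NormedSpace ℝ X] {Γ : Type*}
variable (h : Γ → X →ₗ[ℝ] ℝ) (V : Finset Γ → Submodule ℝ X)

/-- weights -/
noncomputable def wt (j : ℕ × ℕ) : ℝ := (1 / 2 : ℝ) ^ j.1 * (1 / 2 : ℝ) ^ j.2 / (j.1 + 1)

theorem wt_pos (j : ℕ × ℕ) : 0 < wt j := by
  unfold wt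
  positivity

/-- the pieces -/
noncomputable def PJ (j : ℕ × ℕ) (x : X) : ℝ := PP h V j.1 (1 / ((j.2 : ℝ) + 1)) x

/-- the square of the norm -/
noncomputable def QQ (x : X) : ℝ := ‖x‖ ^ 2 + ∑' j, wt j * PJ h V j x

variable {h V}

theorem cj_nonneg (k : ℕ) : (0 : ℝ) ≤ 1 / ((k : ℝ) + 1) := by positivity

theorem cj_le_one (k : ℕ) : (1 : ℝ) / ((k : ℝ) + 1) ≤ 1 := by
  rw [div_le_one (by positivity)]
  have : (0 : ℝ) ≤ k := by positivity
  linarith

theorem Data.isQ_PJ (hD : Data h V) (j : ℕ × ℕ) : IsQ (PJ h V j) :=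
  hD.isQ_PP (cj_nonneg _) (cj_le_one _) _

theorem Data.wt_PJ_le (hD : Data h V) (j : ℕ × ℕ) (x : X) :
    wt j * PJ h V j x ≤ ((1 / 2 : ℝ) ^ j.1 * (1 / 2 : ℝ) ^ j.2) * ‖x‖ ^ 2 := by
  have h1 := hD.PP_le (cj_le_one j.2) j.1 x
  have h2 := mul_le_mul_of_nonneg_left h1 (wt_pos j).le
  have h3 : wt j * ((j.1 + 1) * ‖x‖ ^ 2) = ((1 / 2 : ℝ) ^ j.1 * (1 / 2 : ℝ) ^ j.2) * ‖x‖ ^ 2 := by
    unfold wt
    field_simp
  rw [← h3]
  exact h2

theorem summable_geo : Summable fun j : ℕ × ℕ => (1 / 2 : ℝ) ^ j.1 * (1 / 2 : ℝ) ^ j.2 :=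
  summable_geometric_two.mul_of_nonneg summable_geometric_two (fun n => by positivity)
    (fun n => by positivity)

theorem tsum_geo : ∑' j : ℕ × ℕ, (1 / 2 : ℝ) ^ j.1 * (1 / 2 : ℝ) ^ j.2 = 4 := by
  rw [← summable_geometric_two.tsum_mul_tsum summable_geometric_two summable_geo,
    tsum_geometric_two]
  norm_num

theorem Data.summable (hD : Data h V) (x : X) : Summable fun j => wt j * PJ h V j x :=
  Summable.of_nonneg_of_le (fun j => mul_nonneg (wt_pos j).le ((hD.isQ_PJ j).nonneg x))
    (fun j => hD.wt_PJ_le j x) (summable_geo.mul_right _)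

theorem Data.isQ_QQ (hD : Data h V) : IsQ (QQ h V) :=
  isQ_norm.add (isQ_tsum (fun j x => wt j * PJ h V j x)
    (fun j => (hD.isQ_PJ j).const_mul (wt_pos j).le) hD.summable)

theorem Data.norm_sq_le (hD : Data h V) (x : X) : ‖x‖ ^ 2 ≤ QQ h V x := by
  unfold QQ
  have : 0 ≤ ∑' j, wt j * PJ h V j x :=
    tsum_nonneg fun j => mul_nonneg (wt_pos j).le ((hD.isQ_PJ j).nonneg x)
  linarith

theorem Data.QQ_le (hD : Data h V) (x : X) : QQ h V x ≤ 9 * ‖x‖ ^ 2 := by
  unfold QQ
  have h1 : ∑' j, wt j * PJ h V j x ≤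
      ∑' j : ℕ × ℕ, ((1 / 2 : ℝ) ^ j.1 * (1 / 2 : ℝ) ^ j.2) * ‖x‖ ^ 2 :=
    (hD.summable x).tsum_le_tsum (fun j => hD.wt_PJ_le j x) (summable_geo.mul_right _)
  rw [tsum_mul_right, tsum_geo] at h1
  have h2 := sq_nonneg ‖x‖
  linarith

theorem Data.defect_le (hD : Data h V) (j : ℕ × ℕ) (x y : X) :
    wt j * defect (PJ h V j) x y ≤ defect (QQ h V) x y := by
  have h1 : defect (QQ h V) x y = defect (fun x : X => ‖x‖ ^ 2) x y +
      ∑' j, wt j * defect (PJ h V j) x y := by
    have e : (fun j => wt j * defect (PJ h V j) x y) = fun j =>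
        2 * (wt j * PJ h V j x) + 2 * (wt j * PJ h V j y) - wt j * PJ h V j (x + y) := by
      funext j
      unfold defect
      ring
    rw [e]
    have s1 := (hD.summable x).mul_left 2
    have s2 := (hD.summable y).mul_left 2
    have s3 := hD.summable (x + y)
    rw [(s1.add s2).tsum_sub s3, s1.tsum_add s2, tsum_mul_left, tsum_mul_left]
    unfold defect QQ
    ring
  have hs : Summable fun j => wt j * defect (PJ h V j) x y := by
    have e : (fun j => wt j * defect (PJ h V j) x y) = fun j =>
        2 * (wt j * PJ h V j x) + 2 * (wt j * PJ h V j y) - wt j * PJ h V j (x + y) := by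
      funext j
      unfold defect
      ring
    rw [e]
    exact (((hD.summable x).mul_left 2).add ((hD.summable y).mul_left 2)).sub (hD.summable (x + y))
  have h2 : wt j * defect (PJ h V j) x y ≤ ∑' j, wt j * defect (PJ h V j) x y :=
    hs.le_tsum j fun i _ => mul_nonneg (wt_pos i).le ((hD.isQ_PJ i).defect_nonneg _ _)
  have h3 := (isQ_norm (X := X)).defect_nonneg x y
  rw [h1]
  linarith

theorem Data.defect_tendsto (hD : Data h V) (x : X) (u : ℕ → X)
    (hd : Tendsto (fun n => defect (QQ h V) x (u n)) atTop (𝓝 0)) (n k : ℕ) :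
    Tendsto (fun i => defect (PP h V n (1 / ((k : ℝ) + 1))) x (u i)) atTop (𝓝 0) := by
  have hw := wt_pos (n, k)
  have h1 : Tendsto (fun i => wt (n, k) * defect (PJ h V (n, k)) x (u i)) atTop (𝓝 0) :=
    squeeze_zero (fun i => mul_nonneg hw.le ((hD.isQ_PJ (n, k)).defect_nonneg _ _))
      (fun i => hD.defect_le (n, k) x (u i)) hd
  have h2 := h1.const_mul (wt (n, k))⁻¹
  rw [mul_zero] at h2
  refine h2.congr fun i => ?_
  rw [← mul_assoc, inv_mul_cancel₀ hw.ne', one_mul]
  rfl

theorem Data.eq_of_h (hD : Data h V) {x y : X} (hxy : ∀ γ, h γ x = h γ y) : x = y := by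
  have h1 : ‖x - y‖ ≤ 0 := by
    apply le_of_forall_pos_le_add
    intro ε hε
    obtain ⟨A, hA, v, hv, hlt⟩ := hD.approx (x - y) ε hε
    have hA0 : A = ∅ := by
      rw [Finset.eq_empty_iff_forall_notMem]
      intro γ hγ
      apply hA γ hγ
      rw [map_sub, hxy, sub_self]
    rw [hA0, hD.bot, Submodule.mem_bot] at hv
    rw [hv, sub_zero] at hlt
    linarith
  exact sub_eq_zero.1 (norm_le_zero_iff.1 h1)

theorem Data.continuous (hD : Data h V) (γ : Γ) : Continuous (h γ) := by
  have : LipschitzWith 1 (h γ) := by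
    apply LipschitzWith.of_dist_le_mul
    intro x y
    rw [Real.dist_eq, dist_eq_norm, ← map_sub, NNReal.coe_one, one_mul]
    exact hD.bound γ _
  exact this.continuous

/-- the criterion -/
theorem Data.lurRenormable [CompleteSpace X] (hD : Data h V) : LURRenormable X := by
  classical
  have hnn : ∀ x, 0 ≤ QQ h V x := hD.isQ_QQ.nonneg
  refine ⟨fun x => Real.sqrt (QQ h V x), ⟨hD.isQ_QQ.sqrt_add_le, ?_, 1, 3, one_pos, by norm_num, ?_⟩,
    ?_⟩
  · intro c x
    show Real.sqrt (QQ h V (c • x)) = |c| * Real.sqrt (QQ h V x)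
    rw [hD.isQ_QQ.homog, Real.sqrt_mul (sq_nonneg c), Real.sqrt_sq_eq_abs]
  · intro x
    constructor
    · rw [one_mul]
      exact Real.le_sqrt_of_sq_le (hD.norm_sq_le x)
    · rw [Real.sqrt_le_left (by positivity)]
      have := hD.QQ_le x
      nlinarith
  · intro x u hx hu hlim
    simp only at hx hu hlim ⊢
    have hQ1 : ∀ z, Real.sqrt (QQ h V z) = 1 → QQ h V z = 1 := by
      intro z hz
      have h1 := Real.sq_sqrt (hnn z)
      rw [hz] at h1
      linarith
    have hcont : Continuous fun z => Real.sqrt (QQ h V z) := by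
      have hL : LipschitzWith 3 fun z => Real.sqrt (QQ h V z) := by
        apply LipschitzWith.of_dist_le_mul
        intro z z'
        have key : ∀ a b : X, Real.sqrt (QQ h V a) - Real.sqrt (QQ h V b) ≤ 3 * ‖a - b‖ := by
          intro a b
          have h1 := hD.isQ_QQ.sqrt_add_le (a - b) b
          rw [sub_add_cancel] at h1
          have h2 : Real.sqrt (QQ h V (a - b)) ≤ 3 * ‖a - b‖ := by
            rw [Real.sqrt_le_left (by positivity)]
            have := hD.QQ_le (a - b)
            nlinarith
          linarith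
        rw [Real.dist_eq, dist_eq_norm, abs_le]
        have h1 := key z z'
        have h2 := key z' z
        rw [norm_sub_rev] at h2
        constructor
        · show -((3 : NNReal) * ‖z - z'‖) ≤ _
          have : ((3 : NNReal) : ℝ) = 3 := rfl
          rw [this]
          linarith
        · have : ((3 : NNReal) : ℝ) = 3 := rfl
          rw [this]
          linarith
      exact hL.continuous
    have hdef : Tendsto (fun n => defect (QQ h V) x (u n)) atTop (𝓝 0) := by
      have h1 : ∀ n, defect (QQ h V) x (u n) = 4 - Real.sqrt (QQ h V (u n + x)) ^ 2 := by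
        intro n
        unfold defect
        rw [hQ1 x hx, hQ1 (u n) (hu n), Real.sq_sqrt (hnn _), add_comm x (u n)]
        ring
      have h2 : Tendsto (fun n => 4 - Real.sqrt (QQ h V (u n + x)) ^ 2) atTop (𝓝 (4 - 2 ^ 2)) :=
        tendsto_const_nhds.sub (hlim.pow 2)
      have h3 : (4 : ℝ) - 2 ^ 2 = 0 := by norm_num
      rw [h3] at h2
      exact h2.congr fun n => (h1 n).symm
    have hctl := hD.control x u (hD.defect_tendsto x u hdef)
    have hub : ∀ n, ‖u n‖ ≤ 1 := by
      intro n
      have h1 := hD.norm_sq_le (u n)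
      rw [hQ1 _ (hu n)] at h1
      have := norm_nonneg (u n)
      nlinarith
    have hconv : Tendsto u atTop (𝓝 x) := by
      rw [tendsto_iff_ultrafilter]
      intro U hU
      -- the image is Cauchy
      have hcau : Cauchy (map u (U : Filter ℕ)) := by
        rw [Metric.cauchy_iff]
        refine ⟨inferInstance, fun ε hε => ?_⟩
        obtain ⟨A₀, hA₀, v, hv, hlt⟩ := hD.approx x (ε / 4) (by linarith)
        obtain ⟨A, hsub, -, hdst⟩ := hctl A₀ hA₀
        have hxA : dst (V A) x < ε / 4 := dst_lt_of_mem _ (hD.mono _ _ hsub hv) hlt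
        have hev : ∀ᶠ n in atTop, dst (V A) (u n) < ε / 4 := hdst.eventually (gt_mem_nhds hxA)
        have : FiniteDimensional ℝ (V A) := hD.fd A
        have hex : ∀ n, ∃ w : V A, dst (V A) (u n) < ε / 4 → ‖u n - w‖ < ε / 4 := by
          intro n
          by_cases hn : dst (V A) (u n) < ε / 4
          · obtain ⟨w, hw, hw'⟩ := exists_of_dst_lt _ hn
            exact ⟨⟨w, hw⟩, fun _ => hw'⟩
          · exact ⟨0, fun h => absurd h hn⟩
        choose w hw using hex
        have : ProperSpace (V A) := FiniteDimensional.proper_real _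
        have hK : IsCompact (Metric.closedBall (0 : V A) (1 + ε / 4)) := isCompact_closedBall _ _
        obtain ⟨w₀, -, hw₀⟩ := hK.ultrafilter_le_nhds (U.map w) (by
          rw [le_principal_iff]
          show w ⁻¹' _ ∈ (U : Filter ℕ)
          refine hU ?_
          filter_upwards [hev] with n hn
          show w n ∈ Metric.closedBall (0 : V A) (1 + ε / 4)
          rw [mem_closedBall_zero_iff]
          have h1 := hw n hn
          have h2 : ‖(w n : X)‖ ≤ ‖u n‖ + ‖u n - w n‖ := by
            have := norm_sub_le (u n) (u n - w n)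
            rwa [sub_sub_cancel] at this
          have h3 := hub n
          have h4 : ‖w n‖ = ‖(w n : X)‖ := rfl
          rw [h4]
          linarith)
        have h5 : ∀ᶠ n in (U : Filter ℕ), dist (w n) w₀ < ε / 4 := by
          have h6 : Tendsto w (U : Filter ℕ) (𝓝 w₀) := hw₀
          exact h6.eventually (Metric.ball_mem_nhds w₀ (by linarith : 0 < ε / 4))
        refine ⟨Metric.ball (w₀ : X) (ε / 2), ?_, ?_⟩
        · rw [mem_map]
          filter_upwards [h5, hU hev] with n hn1 hn2
          have h7 := hw n hn2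
          have h8 : dist ((w n : V A) : X) (w₀ : X) < ε / 4 := hn1
          have h9 : dist (u n) (w₀ : X) ≤ dist (u n) (w n : X) + dist ((w n : V A) : X) (w₀ : X) :=
            dist_triangle _ _ _
          rw [dist_eq_norm (u n) (w n : X)] at h9
          show dist (u n) (w₀ : X) < ε / 2
          linarith
        · intro a ha b hb
          have h1 := dist_triangle_right a b (w₀ : X)
          have h2 : dist a (w₀ : X) < ε / 2 := ha
          have h3 : dist b (w₀ : X) < ε / 2 := hb
          linarith
      obtain ⟨y, hy⟩ := CompleteSpace.complete hcau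
      have hy' : Tendsto u (U : Filter ℕ) (𝓝 y) := hy
      have hNy : Real.sqrt (QQ h V y) = 1 := by
        have h1 : Tendsto (fun n => Real.sqrt (QQ h V (u n))) (U : Filter ℕ)
            (𝓝 (Real.sqrt (QQ h V y))) := (hcont.tendsto y).comp hy'
        have h2 : Tendsto (fun n => Real.sqrt (QQ h V (u n))) (U : Filter ℕ) (𝓝 1) := by
          refine tendsto_const_nhds.congr fun n => (hu n).symm
        exact tendsto_nhds_unique h1 h2
      have hNxy : Real.sqrt (QQ h V (y + x)) = 2 := by
        have h1 : Tendsto (fun n => Real.sqrt (QQ h V (u n + x))) (U : Filter ℕ)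
            (𝓝 (Real.sqrt (QQ h V (y + x)))) := (hcont.tendsto (y + x)).comp (hy'.add_const x)
        exact tendsto_nhds_unique h1 (hlim.mono_left hU)
      have hdef2 : Tendsto (fun _ : ℕ => defect (QQ h V) y x) atTop (𝓝 0) := by
        have h1 : defect (QQ h V) y x = 0 := by
          unfold defect
          have h2 := Real.sq_sqrt (hnn (y + x))
          rw [hNxy] at h2
          rw [hQ1 x hx, hQ1 y hNy]
          linarith
        rw [h1]
        exact tendsto_const_nhds
      have hctl2 := hD.control y (fun _ => x) (hD.defect_tendsto y (fun _ => x) hdef2)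
      have hxy : x = y := by
        apply hD.eq_of_h
        intro γ
        by_cases h1 : h γ x = 0
        · by_cases h2 : h γ y = 0
          · rw [h1, h2]
          · obtain ⟨A, hsub, hA, -⟩ := hctl2 {γ} (by
              intro γ' hγ'
              rw [Finset.mem_singleton] at hγ'
              rw [hγ']
              exact h2)
            exact tendsto_nhds_unique tendsto_const_nhds
              (hA γ (hsub (Finset.mem_singleton_self γ)))
        · obtain ⟨A, hsub, hA, -⟩ := hctl {γ} (by
              intro γ' hγ'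
              rw [Finset.mem_singleton] at hγ'
              rw [hγ']
              exact h1)
          have h3 := (hA γ (hsub (Finset.mem_singleton_self γ))).mono_left hU
          have h4 : Tendsto (fun n => h γ (u n)) (U : Filter ℕ) (𝓝 (h γ y)) :=
            ((hD.continuous γ).tendsto y).comp hy'
          exact tendsto_nhds_unique h3 h4
      rw [hxy]
      exact hy'
    have h1 : Tendsto (fun n => Real.sqrt (QQ h V (u n - x))) atTop
        (𝓝 (Real.sqrt (QQ h V (x - x)))) := (hcont.tendsto (x - x)).comp (hconv.sub_const x)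
    have h2 : Real.sqrt (QQ h V (x - x)) = 0 := by
      rw [sub_self]
      have := hD.isQ_QQ.homog 0 (0 : X)
      rw [smul_zero] at this
      rw [this]
      simp
    rwa [h2] at h1

end norm

end Pool.Agent.H17.HS
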