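import Pool.Agent.H17.HS.Det
import Pool.Agent.H17.HS.Norm

/-!
# Haydon's sufficient condition for locally uniformly rotund norms on `C₀(T)`
-/

set_option autoImplicit false
open Filter Topology Set
open scoped ZeroAtInfty

namespace Pool.Agent.H17.HS

open Pool.Agent.H14WH

section asm

variable {T : Type*} [PartialOrder T] [τ : TopologicalSpace T]

omit τ in
/-- the nodes attached to an index -/
def nd (γ : Bool × ℚ × T) : Set T :=
  {t | t = γ.2.2 ∨ (γ.1 = true ∧ t ⋖ γ.2.2)}

omit τ in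
/-- the nodes attached to a finite set of indices -/
def nds (A : Finset (Bool × ℚ × T)) : Set T := {t | ∃ γ ∈ A, t ∈ nd γ}

/-- the finite-dimensional subspaces -/
noncomputable def VV (hT : IsHausdorffTree T) (hτ : IsTreeTopology T τ)
    (A : Finset (Bool × ℚ × T)) : Submodule ℝ C₀(T, ℝ) := WW hT hτ (nds A)

omit τ in
theorem nds_mono {A B : Finset (Bool × ℚ × T)} (h : A ⊆ B) : nds A ⊆ nds B := by
  rintro t ⟨γ, hγ, ht⟩
  exact ⟨γ, h hγ, ht⟩

omit τ in
theorem Meets_mono {N M : Set T} (h : N ⊆ M) : Meets N ⊆ Meets M := by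
  rintro c ⟨a, ha, b, hb, hc⟩
  exact ⟨a, h ha, b, h hb, hc⟩

theorem WW_mono (hT : IsHausdorffTree T) (hτ : IsTreeTopology T τ) {N M : Set T} (h : N ⊆ M) :
    WW hT hτ N ≤ WW hT hτ M := Submodule.span_mono (Set.image_mono (Meets_mono h))

omit τ in
theorem nds_finite (hT : IsHausdorffTree T) (A : Finset (Bool × ℚ × T)) : (nds A).Finite := by
  have h1 : nds A = ⋃ γ ∈ (A : Set (Bool × ℚ × T)), nd γ := by
    ext t
    simp [nds]
  rw [h1]
  apply A.finite_toSet.biUnion
  intro γ _
  have h2 : nd γ ⊆ {γ.2.2} ∪ {t | t ⋖ γ.2.2} := by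
    rintro t (h | h)
    · exact Or.inl h
    · exact Or.inr h.2
  refine ((Set.finite_singleton _).union ?_).subset h2
  apply Set.Subsingleton.finite
  intro t ht t' ht'
  have h3 := le_of_lt_cover hT (show t' ⋖ γ.2.2 from ht') (show t < γ.2.2 from ht.lt)
  have h4 := le_of_lt_cover hT (show t ⋖ γ.2.2 from ht) (show t' < γ.2.2 from ht'.lt)
  exact le_antisymm h3 h4

omit τ in
theorem Meets_finite {N : Set T} (hN : N.Finite) : (Meets N).Finite := by
  have h1 : Meets N = ⋃ a ∈ N, ⋃ b ∈ N, {c | IsMeet a b c} := by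
    ext c
    simp only [Meets, Set.mem_ofPred_eq, Set.mem_iUnion, exists_prop]
  rw [h1]
  apply hN.biUnion
  intro a _
  apply hN.biUnion
  intro b _
  apply Set.Subsingleton.finite
  intro c hc d hd
  have hc' : IsMeet a b c := hc
  have hd' : IsMeet a b d := hd
  exact le_antisymm ((hd' c).2 ((hc' c).1 (le_refl c))) ((hc' d).2 ((hd' d).1 (le_refl d)))

theorem exists_VV (hT : IsHausdorffTree T) (hτ : IsTreeTopology T τ) (ρ : T → ℝ) (f : C₀(T, ℝ))
    {g : C₀(T, ℝ)} (hg : g ∈ WW hT hτ (NN ρ f)) :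
    ∃ A : Finset (Bool × ℚ × T), (∀ γ ∈ A, hh ρ γ f ≠ 0) ∧ g ∈ VV hT hτ A := by
  classical
  have hnode : ∀ a ∈ NN ρ f, ∃ γ : Bool × ℚ × T, hh ρ γ f ≠ 0 ∧ a ∈ nd γ := by
    rintro a (⟨q, hq⟩ | ⟨q, hq⟩ | ⟨u, hu, q, hq⟩)
    · refine ⟨(false, q, a), ?_, Or.inl rfl⟩
      have h2 : hh ρ (false, q, a) f = wq q * HF ρ q a f := by
        unfold hh
        simp
      rw [h2]
      exact mul_ne_zero (wq_pos q).ne' hq
    · refine ⟨(true, q, a), ?_, Or.inl rfl⟩
      have h2 : hh ρ (true, q, a) f = wq q * EF ρ q a f := by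
        unfold hh
        simp
      rw [h2]
      exact mul_ne_zero (wq_pos q).ne' hq
    · refine ⟨(true, q, u), ?_, Or.inr ⟨rfl, hu⟩⟩
      have h2 : hh ρ (true, q, u) f = wq q * EF ρ q u f := by
        unfold hh
        simp
      rw [h2]
      exact mul_ne_zero (wq_pos q).ne' hq
  induction hg using Submodule.span_induction with
  | mem x hx =>
    obtain ⟨c, ⟨a, ha, b, hb, hm⟩, rfl⟩ := hx
    obtain ⟨γ, hγ, haγ⟩ := hnode a ha
    obtain ⟨γ', hγ', hbγ'⟩ := hnode b hb
    refine ⟨{γ, γ'}, ?_, Submodule.subset_span ⟨c, ⟨a, ⟨γ, ?_, haγ⟩, b, ⟨γ', ?_, hbγ'⟩, hm⟩, rfl⟩⟩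
    · intro δ hδ
      rcases Finset.mem_insert.1 hδ with rfl | hδ
      · exact hγ
      · rw [Finset.mem_singleton.1 hδ]
        exact hγ'
    · exact Finset.mem_insert_self _ _
    · exact Finset.mem_insert_of_mem (Finset.mem_singleton_self _)
  | zero => exact ⟨∅, by simp, Submodule.zero_mem _⟩
  | add x y _ _ ih1 ih2 =>
    obtain ⟨A, hA, hxA⟩ := ih1
    obtain ⟨B, hB, hyB⟩ := ih2
    refine ⟨A ∪ B, ?_, Submodule.add_mem _ ?_ ?_⟩
    · intro γ hγ
      rcases Finset.mem_union.1 hγ with h | h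
      · exact hA γ h
      · exact hB γ h
    · exact WW_mono hT hτ (nds_mono Finset.subset_union_left) hxA
    · exact WW_mono hT hτ (nds_mono Finset.subset_union_right) hyB
  | smul r x _ ih =>
    obtain ⟨A, hA, hxA⟩ := ih
    exact ⟨A, hA, Submodule.smul_mem _ _ hxA⟩

/-- Haydon's theorem (sufficiency): if there is an increasing real function that is constant on no
ever-branching subset and for which every node has only finitely many immediate successors with
nearby values, then `C₀(T)` has an equivalent locally uniformly rotund norm. -/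
theorem lurRenormable_of_good (hT : IsHausdorffTree T) (hτ : IsTreeTopology T τ) (ρ : T → ℝ)
    (hρ : Monotone ρ) (hE : ∀ E : Set T, EverBranching E → ∃ s ∈ E, ∃ t ∈ E, ρ s ≠ ρ t)
    (hgood : ∀ t, ∃ η : ℝ, 0 < η ∧ {u | t ⋖ u ∧ ρ u < ρ t + η}.Finite) :
    LURRenormable C₀(T, ℝ) := by
  have hD : Data (hh ρ) (VV hT hτ) :=
    { bound := hh_bound ρ
      fin := fun x δ hδ => hh_fin hT hτ ρ hρ x hδ
      mono := fun A B hAB => WW_mono hT hτ (nds_mono hAB)
      fd := fun A => FiniteDimensional.span_of_finite ℝ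
        ((Meets_finite (nds_finite hT A)).image _)
      bot := by
        unfold VV WW
        have h1 : Meets (nds (∅ : Finset (Bool × ℚ × T))) = ∅ := by
          rw [Set.eq_empty_iff_forall_notMem]
          rintro c ⟨a, ⟨γ, hγ, _⟩, _⟩
          simp at hγ
        rw [h1, Set.image_empty, Submodule.span_empty]
      approx := by
        intro f ε hε
        obtain ⟨g, hg, hgf⟩ := approx_NN hT hτ ρ hρ hE hgood f hε
        obtain ⟨A, hA, hgA⟩ := exists_VV hT hτ ρ f hg
        exact ⟨A, hA, g, hgA, hgf⟩ }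
  exact hD.lurRenormable

omit τ in
theorem good_of_not_bad (ρ : T → ℝ) (hρ : Monotone ρ) {t : T} (h : ¬ IsBadPoint ρ t) :
    ∃ η : ℝ, 0 < η ∧ {u | t ⋖ u ∧ ρ u < ρ t + η}.Finite := by
  classical
  by_contra hcon
  push Not at hcon
  apply h
  have hex : ∀ (S : Finset T), ∃ u : T, (t ⋖ u ∧ ρ u < ρ t + 1 / ((S.card : ℝ) + 1)) ∧ u ∉ S := by
    intro S
    have h1 := hcon (1 / ((S.card : ℝ) + 1)) (by positivity)
    obtain ⟨u, hu, huS⟩ := Set.Infinite.exists_notMem_finset h1 S
    exact ⟨u, hu, huS⟩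
  choose F hF1 hF2 using hex
  let s : ℕ → Finset T := fun n => Nat.rec ∅ (fun _ S => insert (F S) S) n
  have hs : ∀ n, s (n + 1) = insert (F (s n)) (s n) := fun n => rfl
  have hcard : ∀ n, (s n).card = n := by
    intro n
    induction n with
    | zero => rfl
    | succ n ih => rw [hs, Finset.card_insert_of_notMem (hF2 _), ih]
  have hmono : ∀ m n, m ≤ n → s m ⊆ s n := by
    intro m n hmn
    induction n, hmn using Nat.le_induction with
    | base => exact Finset.Subset.refl _
    | succ n _ ih => exact ih.trans (by rw [hs]; exact Finset.subset_insert _ _)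
  refine ⟨fun n => F (s n), ?_, fun n => (hF1 (s n)).1, ?_⟩
  · have aux : ∀ m n, m < n → F (s m) ≠ F (s n) := by
      intro m n hmn heq
      have h1 : F (s m) ∈ s (m + 1) := by
        rw [hs]
        exact Finset.mem_insert_self _ _
      have h2 := hmono (m + 1) n hmn h1
      rw [heq] at h2
      exact hF2 _ h2
    intro m n hmn
    rcases lt_trichotomy m n with h1 | h1 | h1
    · exact absurd hmn (aux m n h1)
    · exact h1
    · exact absurd hmn.symm (aux n m h1)
  · have h1 : Tendsto (fun n : ℕ => ρ t + 1 / ((n : ℝ) + 1)) atTop (𝓝 (ρ t)) := by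
      have := (tendsto_const_nhds (x := ρ t)).add tendsto_one_div_add_atTop_nhds_zero_nat
      simpa using this
    refine tendsto_of_tendsto_of_tendsto_of_le_of_le tendsto_const_nhds h1 ?_ ?_
    · intro n
      exact hρ (hF1 (s n)).1.le
    · intro n
      have h2 := (hF1 (s n)).2
      rw [hcard n] at h2
      exact h2.le

end asm

end Pool.Agent.H17.HS
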