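import Pool.Agent.H14WH.Defs

/-!
# A criterion for locally uniformly rotund renormability
-/

set_option autoImplicit false
open Filter Topology

namespace Pool.Agent.H17.HS

open Pool.Agent.H14WH

section quad

variable {X : Type*} [NormedAddCommGroup X] [NormedSpace ℝ X]

/-- nonnegative, 2-homogeneous, convex -/
structure IsQ (Q : X → ℝ) : Prop where
  nonneg : ∀ x, 0 ≤ Q x
  homog : ∀ (c : ℝ) (x : X), Q (c • x) = c ^ 2 * Q x
  conv : ∀ (a b : ℝ) (x y : X), 0 ≤ a → 0 ≤ b → a + b = 1 →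
    Q (a • x + b • y) ≤ a * Q x + b * Q y

/-- the parallelogram defect -/
def defect (Q : X → ℝ) (x y : X) : ℝ := 2 * Q x + 2 * Q y - Q (x + y)

theorem IsQ.defect_nonneg {Q : X → ℝ} (hQ : IsQ Q) (x y : X) : 0 ≤ defect Q x y := by
  have h1 := hQ.conv (1 / 2) (1 / 2) x y (by norm_num) (by norm_num) (by norm_num)
  have h2 : x + y = (2 : ℝ) • ((1 / 2 : ℝ) • x + (1 / 2 : ℝ) • y) := by
    rw [smul_add, smul_smul, smul_smul]
    norm_num
  have h3 : Q (x + y) = 4 * Q ((1 / 2 : ℝ) • x + (1 / 2 : ℝ) • y) := by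
    conv_lhs => rw [h2]
    rw [hQ.homog]
    norm_num
  unfold defect
  rw [h3]
  linarith

theorem IsQ.sqrt_add_le {Q : X → ℝ} (hQ : IsQ Q) (x y : X) :
    Real.sqrt (Q (x + y)) ≤ Real.sqrt (Q x) + Real.sqrt (Q y) := by
  apply le_of_forall_pos_le_add
  intro ε hε
  set a := Real.sqrt (Q x) + ε / 2 with ha
  set b := Real.sqrt (Q y) + ε / 2 with hb
  have ha0 : 0 < a := by
    have := Real.sqrt_nonneg (Q x)
    rw [ha]
    linarith
  have hb0 : 0 < b := by
    have := Real.sqrt_nonneg (Q y)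
    rw [hb]
    linarith
  have hab : 0 < a + b := add_pos ha0 hb0
  have h1 : x + y = (a + b) • ((a / (a + b)) • ((1 / a) • x) + (b / (a + b)) • ((1 / b) • y)) := by
    rw [smul_add, smul_smul, smul_smul, smul_smul, smul_smul]
    have e1 : (a + b) * (a / (a + b) * (1 / a)) = 1 := by
      field_simp
    have e2 : (a + b) * (b / (a + b) * (1 / b)) = 1 := by
      field_simp
    rw [← mul_assoc] at e1 e2
    rw [mul_assoc, mul_assoc]
    rw [← mul_assoc, ← mul_assoc] at *
    rw [e1, e2, one_smul, one_smul]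
  have hx : Q ((1 / a) • x) ≤ 1 := by
    rw [hQ.homog]
    have h2 : Q x ≤ a ^ 2 := by
      have h3 : Q x = Real.sqrt (Q x) ^ 2 := (Real.sq_sqrt (hQ.nonneg x)).symm
      rw [h3]
      have := Real.sqrt_nonneg (Q x)
      apply pow_le_pow_left₀ this
      rw [ha]
      linarith
    have h4 : (1 / a) ^ 2 * Q x ≤ (1 / a) ^ 2 * a ^ 2 :=
      mul_le_mul_of_nonneg_left h2 (by positivity)
    have h5 : (1 / a) ^ 2 * a ^ 2 = 1 := by
      field_simp
    linarith
  have hy : Q ((1 / b) • y) ≤ 1 := by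
    rw [hQ.homog]
    have h2 : Q y ≤ b ^ 2 := by
      have h3 : Q y = Real.sqrt (Q y) ^ 2 := (Real.sq_sqrt (hQ.nonneg y)).symm
      rw [h3]
      have := Real.sqrt_nonneg (Q y)
      apply pow_le_pow_left₀ this
      rw [hb]
      linarith
    have h4 : (1 / b) ^ 2 * Q y ≤ (1 / b) ^ 2 * b ^ 2 :=
      mul_le_mul_of_nonneg_left h2 (by positivity)
    have h5 : (1 / b) ^ 2 * b ^ 2 = 1 := by
      field_simp
    linarith
  have h2 : Q (x + y) ≤ (a + b) ^ 2 := by
    rw [h1, hQ.homog]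
    have h3 := hQ.conv (a / (a + b)) (b / (a + b)) ((1 / a) • x) ((1 / b) • y)
      (by positivity) (by positivity) (by field_simp)
    have h4 : a / (a + b) * Q ((1 / a) • x) + b / (a + b) * Q ((1 / b) • y) ≤ 1 := by
      have h5 : a / (a + b) * Q ((1 / a) • x) ≤ a / (a + b) * 1 :=
        mul_le_mul_of_nonneg_left hx (by positivity)
      have h6 : b / (a + b) * Q ((1 / b) • y) ≤ b / (a + b) * 1 :=
        mul_le_mul_of_nonneg_left hy (by positivity)
      have h7 : a / (a + b) + b / (a + b) = 1 := by field_simp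
      linarith
    nlinarith [sq_nonneg (a + b), h3.trans h4, sq_nonneg (a+b)]
  calc Real.sqrt (Q (x + y)) ≤ Real.sqrt ((a + b) ^ 2) := Real.sqrt_le_sqrt h2
    _ = a + b := Real.sqrt_sq hab.le
    _ = Real.sqrt (Q x) + Real.sqrt (Q y) + ε := by
      rw [ha, hb]
      ring

theorem isQ_sq_of_seminorm {p : X → ℝ} (h0 : ∀ x, 0 ≤ p x)
    (hadd : ∀ x y, p (x + y) ≤ p x + p y) (hs : ∀ (c : ℝ) x, p (c • x) = |c| * p x) :
    IsQ fun x => p x ^ 2 where
  nonneg x := sq_nonneg _
  homog c x := by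
    show p (c • x) ^ 2 = c ^ 2 * p x ^ 2
    rw [hs, mul_pow, sq_abs]
  conv a b x y ha hb hab := by
    show p (a • x + b • y) ^ 2 ≤ a * p x ^ 2 + b * p y ^ 2
    have h1 : p (a • x + b • y) ≤ a * p x + b * p y := by
      have := hadd (a • x) (b • y)
      rw [hs, hs, abs_of_nonneg ha, abs_of_nonneg hb] at this
      exact this
    have h2 : p (a • x + b • y) ^ 2 ≤ (a * p x + b * p y) ^ 2 :=
      pow_le_pow_left₀ (h0 _) h1 2
    have h3 : (a * p x + b * p y) ^ 2 ≤ a * p x ^ 2 + b * p y ^ 2 := by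
      have hb' : b = 1 - a := by linarith
      subst hb'
      nlinarith [mul_nonneg (mul_nonneg ha hb) (sq_nonneg (p x - p y))]
    exact h2.trans h3

theorem IsQ.add {Q R : X → ℝ} (hQ : IsQ Q) (hR : IsQ R) : IsQ fun x => Q x + R x where
  nonneg x := add_nonneg (hQ.nonneg x) (hR.nonneg x)
  homog c x := by
    show Q (c • x) + R (c • x) = c ^ 2 * (Q x + R x)
    rw [hQ.homog, hR.homog]
    ring
  conv a b x y ha hb hab := by
    have h1 := hQ.conv a b x y ha hb hab
    have h2 := hR.conv a b x y ha hb hab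
    show Q (a • x + b • y) + R (a • x + b • y) ≤ a * (Q x + R x) + b * (Q y + R y)
    linarith

theorem IsQ.const_mul {Q : X → ℝ} (hQ : IsQ Q) {c : ℝ} (hc : 0 ≤ c) : IsQ fun x => c * Q x where
  nonneg x := mul_nonneg hc (hQ.nonneg x)
  homog t x := by
    show c * Q (t • x) = t ^ 2 * (c * Q x)
    rw [hQ.homog]
    ring
  conv a b x y ha hb hab := by
    have h1 := mul_le_mul_of_nonneg_left (hQ.conv a b x y ha hb hab) hc
    show c * Q (a • x + b • y) ≤ a * (c * Q x) + b * (c * Q y)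
    linarith

theorem isQ_sum {ι : Type*} (A : Finset ι) (Q : ι → X → ℝ) (h : ∀ i ∈ A, IsQ (Q i)) :
    IsQ fun x => ∑ i ∈ A, Q i x where
  nonneg x := Finset.sum_nonneg fun i hi => (h i hi).nonneg x
  homog c x := by
    show ∑ i ∈ A, Q i (c • x) = c ^ 2 * ∑ i ∈ A, Q i x
    rw [Finset.mul_sum]
    exact Finset.sum_congr rfl fun i hi => (h i hi).homog c x
  conv a b x y ha hb hab := by
    show ∑ i ∈ A, Q i (a • x + b • y) ≤ a * ∑ i ∈ A, Q i x + b * ∑ i ∈ A, Q i y
    rw [Finset.mul_sum, Finset.mul_sum, ← Finset.sum_add_distrib]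
    exact Finset.sum_le_sum fun i hi => (h i hi).conv a b x y ha hb hab

theorem isQ_tsum {ι : Type*} (Q : ι → X → ℝ) (h : ∀ i, IsQ (Q i))
    (hs : ∀ x, Summable fun i => Q i x) : IsQ fun x => ∑' i, Q i x where
  nonneg x := tsum_nonneg fun i => (h i).nonneg x
  homog c x := by
    show ∑' i, Q i (c • x) = c ^ 2 * ∑' i, Q i x
    rw [← tsum_mul_left]
    exact tsum_congr fun i => (h i).homog c x
  conv a b x y ha hb hab := by
    show ∑' i, Q i (a • x + b • y) ≤ a * ∑' i, Q i x + b * ∑' i, Q i y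
    rw [← tsum_mul_left, ← tsum_mul_left,
      ← ((hs x).mul_left a).tsum_add ((hs y).mul_left b)]
    exact (hs _).tsum_le_tsum (fun i => (h i).conv a b x y ha hb hab)
      (((hs x).mul_left a).add ((hs y).mul_left b))

theorem isQ_iSup {ι : Type*} [Nonempty ι] (Q : ι → X → ℝ) (h : ∀ i, IsQ (Q i))
    (hb : ∀ x, BddAbove (Set.range fun i => Q i x)) : IsQ fun x => ⨆ i, Q i x where
  nonneg x := Real.iSup_nonneg fun i => (h i).nonneg x
  homog c x := by
    show (⨆ i, Q i (c • x)) = c ^ 2 * ⨆ i, Q i x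
    rw [Real.mul_iSup_of_nonneg (sq_nonneg c)]
    exact iSup_congr fun i => (h i).homog c x
  conv a b x y ha hb' hab := by
    show (⨆ i, Q i (a • x + b • y)) ≤ a * (⨆ i, Q i x) + b * ⨆ i, Q i y
    apply ciSup_le
    intro i
    have h1 := (h i).conv a b x y ha hb' hab
    have h2 : Q i x ≤ ⨆ i, Q i x := le_ciSup (hb x) i
    have h3 : Q i y ≤ ⨆ i, Q i y := le_ciSup (hb y) i
    have h4 := mul_le_mul_of_nonneg_left h2 ha
    have h5 := mul_le_mul_of_nonneg_left h3 hb'
    linarith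

/-- the behaviour of a supremum -/
theorem exists_almost_max {ι : Type*} [Nonempty ι] (Q : ι → X → ℝ) (h : ∀ i, IsQ (Q i))
    (hb : ∀ x, BddAbove (Set.range fun i => Q i x)) (x : X) (u : ℕ → X)
    (hd : Tendsto (fun n => defect (fun x => ⨆ i, Q i x) x (u n)) atTop (𝓝 0)) :
    ∃ i : ℕ → ι, Tendsto (fun n => defect (Q (i n)) x (u n)) atTop (𝓝 0) ∧
      Tendsto (fun n => Q (i n) x) atTop (𝓝 (⨆ j, Q j x)) := by
  have hex : ∀ n : ℕ, ∃ i : ι, (⨆ j, Q j (x + u n)) - 1 / ((n : ℝ) + 1) < Q i (x + u n) := by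
    intro n
    apply exists_lt_of_lt_ciSup
    have : (0 : ℝ) < 1 / ((n : ℝ) + 1) := by positivity
    linarith
  choose i hi using hex
  have hlim0 : Tendsto (fun n : ℕ => 1 / ((n : ℝ) + 1)) atTop (𝓝 0) :=
    tendsto_one_div_add_atTop_nhds_zero_nat
  have hlim : Tendsto (fun n : ℕ => defect (fun x => ⨆ i, Q i x) x (u n) + 1 / ((n : ℝ) + 1))
      atTop (𝓝 0) := by
    have := hd.add hlim0
    simpa using this
  have hle : ∀ n (y : X), Q (i n) y ≤ ⨆ j, Q j y := fun n y => le_ciSup (hb y) (i n)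
  have key : ∀ n, defect (Q (i n)) x (u n) + 2 * ((⨆ j, Q j x) - Q (i n) x) ≤
      defect (fun x => ⨆ i, Q i x) x (u n) + 1 / ((n : ℝ) + 1) := by
    intro n
    have h1 := hi n
    have h2 := hle n (u n)
    unfold defect
    simp only
    linarith
  refine ⟨i, ?_, ?_⟩
  · refine squeeze_zero (fun n => (h (i n)).defect_nonneg _ _) (fun n => ?_) hlim
    have h1 := key n
    have h2 := hle n x
    linarith
  · have h3 : Tendsto (fun n => (⨆ j, Q j x) - Q (i n) x) atTop (𝓝 0) := by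
      refine squeeze_zero (fun n => sub_nonneg.2 (hle n x)) (fun n => ?_) hlim
      have h1 := key n
      have h2 := (h (i n)).defect_nonneg x (u n)
      have h4 := hle n x
      linarith
    have h5 : Tendsto (fun n => (⨆ j, Q j x) - ((⨆ j, Q j x) - Q (i n) x)) atTop
        (𝓝 ((⨆ j, Q j x) - 0)) := tendsto_const_nhds.sub h3
    simpa using h5

end quad

end Pool.Agent.H17.HS
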