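import Pool.Agent.H14WH.Lur

/-!
# Necessity for trees in which enough dyadic schemes are bounded
-/

set_option autoImplicit false
open Filter Topology MeasureTheory Set
open scoped ZeroAtInfty

namespace Pool.Agent.H17.HS

open Pool.Agent.H14WH

/-- the initial segments of a sequence of bits, newest bit first -/
def br (b : ℕ → Bool) : ℕ → List Bool
  | 0 => []
  | n + 1 => b n :: br b n

/-- A dyadic scheme of nodes all of whose branches are bounded above. -/
def BoundedScheme {T : Type*} [PartialOrder T] (t : List Bool → T) : Prop :=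
  (∀ σ b, t σ ≤ t (b :: σ)) ∧
    (∀ σ, ¬ t (true :: σ) ≤ t (false :: σ) ∧ ¬ t (false :: σ) ≤ t (true :: σ)) ∧
      ∀ b : ℕ → Bool, ∃ u, ∀ n, t (br b n) ≤ u

/-- If every increasing real function is constant on some ever-branching set then every increasing
real function is constant on some dyadic scheme all of whose branches are bounded above. -/
def SchemeRich (T : Type*) [PartialOrder T] : Prop :=
  (∀ ρ : T → ℝ, Monotone ρ → ∃ E : Set T, EverBranching E ∧ ∀ s ∈ E, ∀ t ∈ E, ρ s = ρ t) →
    ∀ ρ : T → ℝ, Monotone ρ → ∃ t : List Bool → T, BoundedScheme t ∧ ∀ σ τ, ρ (t σ) = ρ (t τ)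

theorem schemeRich_of_limitClosed {T : Type*} [PartialOrder T] (h : LimitClosed T) :
    SchemeRich T := by
  classical
  obtain ⟨ρ₀, hρ₀, hcl⟩ := h
  intro hall ρ hρ
  obtain ⟨E, ⟨⟨e0, he0⟩, hbr⟩, hconst⟩ := hall (fun t => ρ t + ρ₀ t) (hρ.add hρ₀)
  have hc : ∀ e ∈ E, e0 ≤ e → ρ e = ρ e0 ∧ ρ₀ e = ρ₀ e0 := by
    intro e he h0
    have h1 : ρ e + ρ₀ e = ρ e0 + ρ₀ e0 := hconst e he e0 he0
    have h2 := hρ h0
    have h3 := hρ₀ h0
    constructor <;> linarith
  let E0 : Set T := {e | e ∈ E ∧ e0 ≤ e}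
  have hex : ∀ e : E0, ∃ ab : E0 × E0, (e : T) ≤ ab.1 ∧ (e : T) ≤ ab.2 ∧
      ¬ (ab.1 : T) ≤ ab.2 ∧ ¬ (ab.2 : T) ≤ ab.1 := by
    intro e
    obtain ⟨a, ha, b, hb, h1, h2, h3, h4⟩ := hbr e e.2.1
    exact ⟨(⟨a, ha, e.2.2.trans h1⟩, ⟨b, hb, e.2.2.trans h2⟩), h1, h2, h3, h4⟩
  choose ch hch1 hch2 hch3 hch4 using hex
  let t : List Bool → E0 := fun σ => List.rec (⟨e0, he0, le_refl _⟩ : E0)
    (fun b _ e => if b = true then (ch e).1 else (ch e).2) σ
  have ht : ∀ b σ, t (b :: σ) = if b = true then (ch (t σ)).1 else (ch (t σ)).2 := fun b σ => rfl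
  have hle : ∀ (σ : List Bool) (b : Bool), (t σ).1 ≤ (t (b :: σ)).1 := by
    intro σ b
    rw [ht]
    cases b
    · exact hch2 _
    · exact hch1 _
  refine ⟨fun σ => (t σ).1, ⟨hle, ?_, ?_⟩, ?_⟩
  · intro σ
    show ¬ (t (true :: σ)).1 ≤ (t (false :: σ)).1 ∧ ¬ (t (false :: σ)).1 ≤ (t (true :: σ)).1
    rw [ht, ht]
    exact ⟨hch3 _, hch4 _⟩
  · intro b
    apply hcl (fun n => (t (br b n)).1)
    · exact monotone_nat_of_le_succ fun n => hle _ _
    · intro n
      rw [(hc _ (t (br b n)).2.1 (t (br b n)).2.2).2, (hc _ (t (br b 0)).2.1 (t (br b 0)).2.2).2]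
  · intro σ τ
    show ρ (t σ).1 = ρ (t τ).1
    rw [(hc _ (t σ).2.1 (t σ).2.2).1, (hc _ (t τ).2.1 (t τ).2.2).1]

section

variable {T : Type*} [PartialOrder T]

theorem scheme_le {t : List Bool → T} (hle : ∀ σ b, t σ ≤ t (b :: σ)) (σ τ : List Bool) :
    t σ ≤ t (τ ++ σ) := by
  induction τ with
  | nil => exact le_refl _
  | cons b τ ih => exact ih.trans (hle _ _)

theorem scheme_inj (hT : IsHausdorffTree T) {t : List Bool → T} (hle : ∀ σ b, t σ ≤ t (b :: σ))
    (hinc : ∀ σ, ¬ t (true :: σ) ≤ t (false :: σ) ∧ ¬ t (false :: σ) ≤ t (true :: σ)) :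
    Function.Injective t := by
  have hinc' : ∀ σ (a b : Bool), a ≠ b → ¬ t (a :: σ) ≤ t (b :: σ) := by
    intro σ a b hab
    cases a <;> cases b
    · exact absurd rfl hab
    · exact (hinc σ).2
    · exact (hinc σ).1
    · exact absurd rfl hab
  -- proper extensions are different
  have hext : ∀ σ τ : List Bool, τ ≠ [] → t σ ≠ t (τ ++ σ) := by
    intro σ τ hτ h
    obtain ⟨τ', b, rfl⟩ : ∃ τ' b, τ = τ' ++ [b] := by
      refine ⟨τ.dropLast, τ.getLast hτ, (List.dropLast_append_getLast hτ).symm⟩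
    have h1 : t (b :: σ) ≤ t ((τ' ++ [b]) ++ σ) := by
      have := scheme_le hle (b :: σ) τ'
      simpa using this
    rw [← h] at h1
    have h2 := h1.trans (hle σ (!b))
    exact hinc' σ b (!b) (by cases b <;> simp) h2
  have key : ∀ (σ τ : List Bool), σ.length ≤ τ.length → t σ = t τ → σ = τ := by
    intro σ τ hlen h
    obtain ⟨p, q, hpq, hq⟩ : ∃ p q : List Bool, τ = p ++ q ∧ q.length = σ.length :=
      ⟨τ.take (τ.length - σ.length), τ.drop (τ.length - σ.length),
        (List.take_append_drop _ _).symm, by rw [List.length_drop]; omega⟩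
    by_cases hqs : q = σ
    · subst hqs
      by_cases hp : p = []
      · rw [hpq, hp]
        rfl
      · exfalso
        rw [hpq] at h
        exact hext q p hp h
    · exfalso
      -- diverging lists of the same length
      have hdiv : ∀ (m : ℕ) (a c : List Bool), a.length = m → c.length = m → a ≠ c →
          ∃ (x y : Bool) (r a' c' : List Bool), x ≠ y ∧ a = a' ++ x :: r ∧ c = c' ++ y :: r := by
        intro m
        induction m with
        | zero =>
          intro a c ha hc hne
          rw [List.length_eq_zero_iff] at ha hc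
          exact absurd (ha.trans hc.symm) hne
        | succ m ih =>
          intro a c ha hc hne
          cases a with
          | nil => simp at ha
          | cons x a =>
            cases c with
            | nil => simp at hc
            | cons y c =>
              by_cases hac : a = c
              · subst hac
                refine ⟨x, y, a, [], [], ?_, rfl, rfl⟩
                intro hxy
                exact hne (by rw [hxy])
              · obtain ⟨x', y', r, a', c', h1, h2, h3⟩ := ih a c (by simpa using ha)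
                  (by simpa using hc) hac
                exact ⟨x', y', r, x :: a', y :: c', h1, by rw [h2]; rfl, by rw [h3]; rfl⟩
      obtain ⟨x, y, r, a', c', hxy, h1, h2⟩ := hdiv σ.length q σ hq rfl hqs
      have h3 : t (x :: r) ≤ t τ := by
        rw [hpq, h1]
        have := scheme_le hle (x :: r) (p ++ a')
        simpa using this
      have h4 : t (y :: r) ≤ t σ := by
        rw [h2]
        exact scheme_le hle (y :: r) c'
      rw [h] at h4
      rcases hT.chain _ _ _ h3 h4 with h5 | h5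
      · exact hinc' r x y hxy h5
      · exact hinc' r y x hxy.symm h5
  intro σ τ h
  rcases le_total σ.length τ.length with h1 | h1
  · exact key σ τ h1 h
  · exact (key τ σ h1 h.symm).symm

variable [τ : TopologicalSpace T]
variable {X : Type*} [NormedAddCommGroup X] [NormedSpace ℝ X]
variable {Y : Type*} [NormedAddCommGroup Y] [NormedSpace ℝ Y]

/-- If a space that contains `C₀(T)` isomorphically is weakly homeomorphic to a space with a
strictly convex norm, then there is an increasing real function that is constant on no dyadic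
scheme all of whose branches are bounded above. -/
theorem exists_increasing_scheme [CompleteSpace X] (hT : IsHausdorffTree T)
    (hτ : IsTreeTopology T τ)
    (J : C₀(T, ℝ) →L[ℝ] Y) (c : ℝ) (hc : 0 < c) (hJ : ∀ g, c * ‖g‖ ≤ ‖J g‖)
    (h : WeakSpace ℝ X ≃ₜ WeakSpace ℝ Y)
    (N : X → ℝ) (hadd : ∀ x y, N (x + y) ≤ N x + N y) (hsmul : ∀ (c : ℝ) x, N (c • x) = |c| * N x)
    (hNc : Continuous N) (hstrict : ∀ x y, N x = N y → N (x + y) = 2 * N x → x = y) :
    ∃ ρ : T → ℝ, Monotone ρ ∧
      ∀ t : List Bool → T, BoundedScheme t → ∃ σ τ, ρ (t σ) ≠ ρ (t τ) := by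
  classical
  have hN : ∀ x, 0 ≤ N x := by
    intro x
    have h1 := hadd x (-x)
    have h2 : N (-x) = N x := by
      have := hsmul (-1) x
      simpa using this
    have h3 : N (0 : X) = 0 := by
      have := hsmul 0 (0 : X)
      simpa using this
    rw [add_neg_cancel, h3, h2] at h1
    linarith
  let q : ℕ → T → ℝ := fun n s => level N (hullAbove hT hτ J h n s)
  have hq0 : ∀ n s, 0 ≤ q n s := fun n s => level_nonneg hN _
  have hq1 : ∀ n s, q n s ≤ 1 := fun n s => level_le_one hN _
  have hqm : ∀ n, Monotone (q n) := fun n s s' hs => level_anti hN (hullAbove_anti hT hτ J h n hs)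
  have hsum : ∀ s, Summable fun n => (1 / 2 : ℝ) ^ n * q n s := by
    intro s
    apply Summable.of_nonneg_of_le (fun n => mul_nonneg (by positivity) (hq0 n s)) _
      (summable_geometric_two)
    intro n
    calc (1 / 2 : ℝ) ^ n * q n s ≤ (1 / 2 : ℝ) ^ n * 1 := by
          gcongr
          exact hq1 n s
      _ = (1 / 2 : ℝ) ^ n := mul_one _
  have hmono1 : Monotone fun s => ∑' n, (1 / 2 : ℝ) ^ n * q n s := by
    intro s s' hs
    apply Summable.tsum_le_tsum _ (hsum s) (hsum s')
    intro n
    exact mul_le_mul_of_nonneg_left (hqm n hs) (by positivity)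
  refine ⟨fun s => ∑' n, (1 / 2 : ℝ) ^ n * q n s, hmono1, ?_⟩
  rintro t ⟨htle, htinc, htbd⟩
  by_contra hcon
  push Not at hcon
  have hroot : ∀ σ, t [] ≤ t σ := by
    intro σ
    have := scheme_le htle [] σ
    simpa using this
  have hqt : ∀ σ n, q n (t []) = q n (t σ) := by
    intro σ n
    by_contra hne
    have hlt : q n (t []) < q n (t σ) := lt_of_le_of_ne (hqm n (hroot σ)) hne
    have : (∑' n, (1 / 2 : ℝ) ^ n * q n (t [])) < ∑' n, (1 / 2 : ℝ) ^ n * q n (t σ) := by
      apply Summable.tsum_lt_tsum (i := n) _ _ (hsum _) (hsum _)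
      · intro k
        exact mul_le_mul_of_nonneg_left (hqm k (hroot σ)) (by positivity)
      · exact mul_lt_mul_of_pos_left hlt (by positivity)
    have h1 := hcon [] σ
    exact absurd h1 this.ne
  have hinj := scheme_inj hT htle htinc
  let F : Set T := Set.range t
  let child : F → Bool → F := fun e b => ⟨t (b :: e.2.choose), _, rfl⟩
  have hchild : ∀ σ b, child ⟨t σ, σ, rfl⟩ b = ⟨t (b :: σ), _, rfl⟩ := by
    intro σ b
    apply Subtype.ext
    show t (b :: _) = t (b :: σ)
    congr 2
    exact hinj (⟨t σ, σ, rfl⟩ : F).2.choose_spec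
  let r : F := ⟨t [], [], rfl⟩
  have hle : ∀ (e : F) (b : Bool), (e : T) ≤ ((child e b : F) : T) := by
    rintro ⟨_, σ, rfl⟩ b
    rw [hchild]
    exact htle σ b
  have hinc : ∀ e : F, ¬ ((child e true : F) : T) ≤ ((child e false : F) : T) ∧
    ¬ ((child e false : F) : T) ≤ ((child e true : F) : T) := by
    rintro ⟨_, σ, rfl⟩
    rw [hchild, hchild]
    exact htinc σ
  have hnode : ∀ (b : ℕ → Bool) (k : ℕ), node child r b k = ⟨t (br b k), _, rfl⟩ := by
    intro b k
    induction k with
    | zero => rfl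
    | succ k ih =>
      show child (node child r b k) (b k) = _
      rw [ih, hchild]
      rfl
  choose lam hlam' using htbd
  have hlam : ∀ b k, ((node child r b k : F) : T) ≤ lam b := by
    intro b k
    rw [hnode]
    exact hlam' b k
  obtain ⟨n, hn⟩ := exists_nat_ge ‖pt hT hτ J h (t [])‖
  have hne0 : (hullAbove hT hτ J h n (t [])).Nonempty :=
    ⟨pt hT hτ J h (t []), subset_convexHull ℝ _ ⟨t [], le_refl _, rfl, hn⟩⟩
  have hne : ∀ e : F, (hullAbove hT hτ J h n (e : T)).Nonempty := by
    rintro ⟨_, σ, rfl⟩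
    rw [← level_lt_one_iff hN]
    have h2 : q n (t []) < 1 := (level_lt_one_iff hN _).mpr hne0
    rw [hqt σ n] at h2
    exact h2
  refine no_constant_scheme child r lam hT hτ hle hinc hlam J c hc hJ h N hadd hsmul hNc hstrict n
    (sInf (N '' hullAbove hT hτ J h n (t []))) ?_ ?_
  · intro x hx
    apply csInf_le
    · exact ⟨0, by rintro _ ⟨x, _, rfl⟩; exact hN x⟩
    · exact ⟨x, hx, rfl⟩
  · rintro ⟨_, σ, rfl⟩ δ hδ
    have h1 : sInf (N '' hullAbove hT hτ J h n (t [])) = sInf (N '' hullAbove hT hτ J h n (t σ)) :=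
      sInf_eq_of_level_eq hN hne0 (hne ⟨t σ, σ, rfl⟩) (hqt σ n)
    rw [h1]
    obtain ⟨_, ⟨x, hx, rfl⟩, hlt⟩ := exists_lt_of_csInf_lt ((hne ⟨t σ, σ, rfl⟩).image N)
      (show sInf (N '' hullAbove hT hτ J h n (t σ)) <
        sInf (N '' hullAbove hT hτ J h n (t σ)) + δ by linarith)
    exact ⟨x, hx, hlt⟩

end

end Pool.Agent.H17.HS
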