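import Mathlib

/-!
# Approximation by combinations of idempotents in `C₀(T)`
-/

set_option autoImplicit false
open Filter Topology Set
open scoped ZeroAtInfty

namespace Pool.Agent.H17.HS

variable {T : Type*} [TopologicalSpace T]

theorem isCompact_ge (f : C₀(T, ℝ)) {ε : ℝ} (hε : 0 < ε) : IsCompact {x | ε ≤ |f x|} := by
  have h1 : ∀ᶠ x in cocompact T, |f x| < ε := by
    have h2 : Tendsto f (cocompact T) (𝓝 0) := f.zero_at_infty'
    have h3 : Tendsto (fun x => |f x|) (cocompact T) (𝓝 0) := by
      have := h2.abs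
      simpa using this
    exact h3.eventually (gt_mem_nhds hε)
  obtain ⟨t, ht, hsub⟩ := mem_cocompact'.1 h1
  refine ht.of_isClosed_subset ?_ ?_
  · exact isClosed_le continuous_const (f.continuous.abs)
  · intro x hx
    apply hsub
    intro h4
    have h5 : |f x| < ε := h4
    have h6 : ε ≤ |f x| := hx
    linarith

/-- idempotent elements -/
def Idem (g : C₀(T, ℝ)) : Prop := ∀ x, g x = 0 ∨ g x = 1

theorem Idem.mul {g g' : C₀(T, ℝ)} (h : Idem g) (h' : Idem g') : Idem (g * g') := by
  intro x
  show g x * g' x = 0 ∨ g x * g' x = 1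
  rcases h x with h1 | h1 <;> rcases h' x with h2 | h2 <;> simp [h1, h2]

theorem Idem.diff {g g' : C₀(T, ℝ)} (h : Idem g) (h' : Idem g') : Idem (g - g * g') := by
  intro x
  show g x - g x * g' x = 0 ∨ g x - g x * g' x = 1
  rcases h x with h1 | h1 <;> rcases h' x with h2 | h2 <;> simp [h1, h2]

theorem isCompact_one (g : C₀(T, ℝ)) : IsCompact {x | g x = 1} := by
  refine (isCompact_ge g one_pos).of_isClosed_subset (isClosed_eq g.continuous continuous_const) ?_
  intro x hx
  have h1 : g x = 1 := hx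
  show (1 : ℝ) ≤ |g x|
  rw [h1, abs_one]

variable (W : Submodule ℝ C₀(T, ℝ)) (hmul : ∀ g ∈ W, ∀ g' ∈ W, g * g' ∈ W) (f : C₀(T, ℝ))

include hmul in
theorem exists_local (h1 : ∀ s, f s ≠ 0 → ∃ g ∈ W, Idem g ∧ g s = 1)
    (h2 : ∀ s t, f s ≠ f t → ∃ g ∈ W, Idem g ∧ g s ≠ g t)
    {ε : ℝ} (hε : 0 < ε) {s : T} (hs : f s ≠ 0) :
    ∃ g ∈ W, Idem g ∧ g s = 1 ∧ ∀ x, g x = 1 → |f x - f s| < ε := by
  obtain ⟨g₀, hg₀W, hg₀, hg₀s⟩ := h1 s hs
  have hZ : IsCompact ({x | g₀ x = 1} ∩ {x | ε ≤ |f x - f s|}) :=
    (isCompact_one g₀).inter_right (isClosed_le continuous_const ((f.continuous.sub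
      continuous_const).abs))
  have hP : ∃ g ∈ W, Idem g ∧ g s = 1 ∧ ∀ x ∈ {x | g₀ x = 1} ∩ {x | ε ≤ |f x - f s|}, g x = 0 := by
    refine hZ.induction_on (p := fun S => ∃ g ∈ W, Idem g ∧ g s = 1 ∧ ∀ x ∈ S, g x = 0) ?_ ?_ ?_ ?_
    · exact ⟨g₀, hg₀W, hg₀, hg₀s, by simp⟩
    · rintro S S' hSS ⟨g, hgW, hg, hgs, hgS⟩
      exact ⟨g, hgW, hg, hgs, fun x hx => hgS x (hSS hx)⟩
    · rintro S S' ⟨g, hgW, hg, hgs, hgS⟩ ⟨g', hgW', hg', hgs', hgS'⟩
      refine ⟨g * g', hmul g hgW g' hgW', hg.mul hg', ?_, ?_⟩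
      · show g s * g' s = 1
        rw [hgs, hgs', mul_one]
      · intro x hx
        show g x * g' x = 0
        rcases hx with hx | hx
        · rw [hgS x hx, zero_mul]
        · rw [hgS' x hx, mul_zero]
    · rintro t ⟨-, ht⟩
      have hne : f s ≠ f t := by
        intro h3
        have h4 : ε ≤ |f t - f s| := ht
        rw [h3, sub_self, abs_zero] at h4
        linarith
      obtain ⟨g, hgW, hg, hgst⟩ := h2 s t hne
      rcases hg s with hs0 | hs1
      · have ht1 : g t = 1 := by
          rcases hg t with h3 | h3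
          · exact absurd (hs0.trans h3.symm) hgst
          · exact h3
        refine ⟨{x | 1 / 2 < g x}, mem_nhdsWithin_of_mem_nhds
          ((isOpen_lt continuous_const g.continuous).mem_nhds ?_), g₀ - g₀ * g,
          W.sub_mem hg₀W (hmul _ hg₀W _ hgW), hg₀.diff hg, ?_, ?_⟩
        · show 1 / 2 < g t
          rw [ht1]
          norm_num
        · show g₀ s - g₀ s * g s = 1
          rw [hg₀s, hs0]
          norm_num
        · intro x hx
          have h3 : 1 / 2 < g x := hx
          have h4 : g x = 1 := by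
            rcases hg x with h5 | h5
            · rw [h5] at h3
              norm_num at h3
            · exact h5
          show g₀ x - g₀ x * g x = 0
          rw [h4]
          ring
      · have ht0 : g t = 0 := by
          rcases hg t with h3 | h3
          · exact h3
          · exact absurd (hs1.trans h3.symm) hgst
        refine ⟨{x | g x < 1 / 2}, mem_nhdsWithin_of_mem_nhds
          ((isOpen_lt g.continuous continuous_const).mem_nhds ?_), g, hgW, hg, hs1, ?_⟩
        · show g t < 1 / 2
          rw [ht0]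
          norm_num
        · intro x hx
          have h3 : g x < 1 / 2 := hx
          rcases hg x with h5 | h5
          · exact h5
          · rw [h5] at h3
            norm_num at h3
  obtain ⟨g, hgW, hg, hgs, hgZ⟩ := hP
  refine ⟨g₀ * g, hmul _ hg₀W _ hgW, hg₀.mul hg, ?_, ?_⟩
  · show g₀ s * g s = 1
    rw [hg₀s, hgs, mul_one]
  · intro x hx
    have hx' : g₀ x * g x = 1 := hx
    have h3 : g₀ x = 1 := by
      rcases hg₀ x with h4 | h4
      · rw [h4, zero_mul] at hx'
        norm_num at hx'
      · exact h4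
    by_contra hcon
    push Not at hcon
    rw [hgZ x ⟨h3, hcon⟩, mul_zero] at hx'
    norm_num at hx'

include hmul in
theorem exists_approx (h1 : ∀ s, f s ≠ 0 → ∃ g ∈ W, Idem g ∧ g s = 1)
    (h2 : ∀ s t, f s ≠ f t → ∃ g ∈ W, Idem g ∧ g s ≠ g t)
    {ε : ℝ} (hε : 0 < ε) : ∃ g ∈ W, ∀ x, |f x - g x| ≤ ε := by
  have hP : ∃ g ∈ W, ∃ r ∈ W, Idem r ∧ (∀ x ∈ {x | ε ≤ |f x|}, r x = 1) ∧
      (∀ x, r x = 1 → |f x - g x| ≤ ε) ∧ (∀ x, r x = 0 → g x = 0) := by
    refine (isCompact_ge f hε).induction_on (p := fun S => ∃ g ∈ W, ∃ r ∈ W, Idem r ∧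
      (∀ x ∈ S, r x = 1) ∧ (∀ x, r x = 1 → |f x - g x| ≤ ε) ∧ (∀ x, r x = 0 → g x = 0)) ?_ ?_ ?_ ?_
    · refine ⟨0, W.zero_mem, 0, W.zero_mem, fun x => Or.inl rfl, by simp, ?_, fun x _ => rfl⟩
      intro x hx
      have : (0 : ℝ) = 1 := hx
      norm_num at this
    · rintro S S' hSS ⟨g, hgW, r, hrW, hr, ha, hb, hc⟩
      exact ⟨g, hgW, r, hrW, hr, fun x hx => ha x (hSS hx), hb, hc⟩
    · rintro S S' ⟨g, hgW, r, hrW, hr, ha, hb, hc⟩ ⟨g', hgW', r', hrW', hr', ha', hb', hc'⟩
      refine ⟨g + (g' - g' * r), W.add_mem hgW (W.sub_mem hgW' (hmul _ hgW' _ hrW)),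
        r + (r' - r' * r), W.add_mem hrW (W.sub_mem hrW' (hmul _ hrW' _ hrW)), ?_, ?_, ?_, ?_⟩
      · intro x
        show r x + (r' x - r' x * r x) = 0 ∨ r x + (r' x - r' x * r x) = 1
        rcases hr x with e1 | e1 <;> rcases hr' x with e2 | e2 <;> simp [e1, e2]
      · intro x hx
        show r x + (r' x - r' x * r x) = 1
        rcases hx with hx | hx
        · rw [ha x hx]
          ring
        · rw [ha' x hx]
          ring
      · intro x hx
        have hx' : r x + (r' x - r' x * r x) = 1 := hx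
        show |f x - (g x + (g' x - g' x * r x))| ≤ ε
        rcases hr x with e1 | e1
        · rw [e1] at hx' ⊢
          have e2 : r' x = 1 := by linarith
          rw [hc x e1]
          have := hb' x e2
          have e3 : f x - (0 + (g' x - g' x * 0)) = f x - g' x := by ring
          rw [e3]
          exact this
        · rw [e1]
          have := hb x e1
          have e3 : f x - (g x + (g' x - g' x * 1)) = f x - g x := by ring
          rw [e3]
          exact this
      · intro x hx
        have hx' : r x + (r' x - r' x * r x) = 0 := hx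
        show g x + (g' x - g' x * r x) = 0
        rcases hr x with e1 | e1
        · rw [e1] at hx' ⊢
          have e2 : r' x = 0 := by linarith
          rw [hc x e1, hc' x e2]
          ring
        · rw [e1] at hx'
          exfalso
          have : r' x - r' x * 1 = 0 := by ring
          linarith
    · intro s hs
      have hs0 : f s ≠ 0 := by
        intro h3
        have h4 : ε ≤ |f s| := hs
        rw [h3, abs_zero] at h4
        linarith
      obtain ⟨g, hgW, hg, hgs, hgf⟩ := exists_local W hmul f h1 h2 hε hs0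
      refine ⟨{x | 1 / 2 < g x}, mem_nhdsWithin_of_mem_nhds
          ((isOpen_lt continuous_const g.continuous).mem_nhds ?_), f s • g, W.smul_mem _ hgW,
          g, hgW, hg, ?_, ?_, ?_⟩
      · show 1 / 2 < g s
        rw [hgs]
        norm_num
      · intro x hx
        have h3 : 1 / 2 < g x := hx
        rcases hg x with h5 | h5
        · rw [h5] at h3
          norm_num at h3
        · exact h5
      · intro x hx
        show |f x - f s * g x| ≤ ε
        rw [hx, mul_one]
        exact (hgf x hx).le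
      · intro x hx
        show f s * g x = 0
        rw [hx, mul_zero]
  obtain ⟨g, hgW, r, hrW, hr, ha, hb, hc⟩ := hP
  refine ⟨g, hgW, fun x => ?_⟩
  rcases hr x with e | e
  · rw [hc x e, sub_zero]
    by_contra hcon
    push Not at hcon
    have := ha x hcon.le
    rw [e] at this
    norm_num at this
  · exact hb x e

end Pool.Agent.H17.HS
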