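import Pool.Agent.H17.HS.TreeL
import Pool.Agent.H17.HS.SW

/-!
# The operator from `C₀(T)` to `c₀(Γ)`
-/

set_option autoImplicit false
open Filter Topology Set
open scoped ZeroAtInfty

namespace Pool.Agent.H17.HS

open Pool.Agent.H14WH

section op

variable {T : Type*} [PartialOrder T] [τ : TopologicalSpace T]

/-- evaluation -/
def ev (t : T) : C₀(T, ℝ) →ₗ[ℝ] ℝ where
  toFun f := f t
  map_add' _ _ := rfl
  map_smul' _ _ := rfl

omit [PartialOrder T] in
theorem ev_apply (t : T) (f : C₀(T, ℝ)) : ev t f = f t := rfl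

omit [PartialOrder T] in
theorem abs_apply_le (f : C₀(T, ℝ)) (t : T) : |f t| ≤ ‖f‖ := f.toBCF.norm_coe_le_norm t

omit [PartialOrder T] in
theorem norm_le_of (f : C₀(T, ℝ)) {ε : ℝ} (hε : 0 ≤ ε) (h : ∀ t, |f t| ≤ ε) : ‖f‖ ≤ ε := by
  have h2 : ‖f.toBCF‖ ≤ ε := by
    rw [BoundedContinuousFunction.norm_le hε]
    exact h
  exact h2

omit τ in
/-- `u` is a minimal element of `{ρ > q}` -/
def MinAt (ρ : T → ℝ) (q : ℚ) (u : T) : Prop := (q : ℝ) < ρ u ∧ ∀ s, s < u → ρ s ≤ q

omit τ in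
/-- the immediate successors of `t` with `ρ ≤ q` -/
def Suc (ρ : T → ℝ) (q : ℚ) (t : T) : Set T := {u | t ⋖ u ∧ ρ u ≤ q}

/-- weight -/
noncomputable def wq (q : ℚ) : ℝ := (1 / 2 : ℝ) ^ Encodable.encode q

theorem wq_pos (q : ℚ) : 0 < wq q := by
  unfold wq
  positivity

theorem wq_le_one (q : ℚ) : wq q ≤ 1 := pow_le_one₀ (by norm_num) (by norm_num)

open Classical in
/-- the functional of type `H` -/
noncomputable def HF (ρ : T → ℝ) (q : ℚ) (t : T) : C₀(T, ℝ) →ₗ[ℝ] ℝ :=
  if h : ρ t ≤ q ∧ (Suc ρ q t).Finite then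
    (1 / ((h.2.toFinset.card : ℝ) + 1)) • (ev t - ∑ u ∈ h.2.toFinset, ev u)
  else 0

open Classical in
/-- the functional of type `E` -/
noncomputable def EF (ρ : T → ℝ) (q : ℚ) (u : T) : C₀(T, ℝ) →ₗ[ℝ] ℝ :=
  if MinAt ρ q u then ev u else 0

/-- all functionals -/
noncomputable def hh (ρ : T → ℝ) (γ : Bool × ℚ × T) : C₀(T, ℝ) →ₗ[ℝ] ℝ :=
  wq γ.2.1 • (if γ.1 = true then EF ρ γ.2.1 γ.2.2 else HF ρ γ.2.1 γ.2.2)

theorem HF_bound (ρ : T → ℝ) (q : ℚ) (t : T) (f : C₀(T, ℝ)) : |HF ρ q t f| ≤ ‖f‖ := by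
  classical
  unfold HF
  split_ifs with h
  · rw [LinearMap.smul_apply, LinearMap.sub_apply, _root_.LinearMap.sum_apply, smul_eq_mul, abs_mul,
      abs_of_nonneg (by positivity)]
    have h1 : |ev t f - ∑ u ∈ h.2.toFinset, ev u f| ≤ (h.2.toFinset.card + 1) * ‖f‖ := by
      have h2 : |∑ u ∈ h.2.toFinset, ev u f| ≤ h.2.toFinset.card * ‖f‖ := by
        calc |∑ u ∈ h.2.toFinset, ev u f| ≤ ∑ u ∈ h.2.toFinset, |ev u f| :=
              Finset.abs_sum_le_sum_abs _ _
          _ ≤ ∑ _u ∈ h.2.toFinset, ‖f‖ := Finset.sum_le_sum fun u _ => abs_apply_le f u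
          _ = h.2.toFinset.card * ‖f‖ := by rw [Finset.sum_const, nsmul_eq_mul]
      have h3 : |ev t f| ≤ ‖f‖ := abs_apply_le f t
      have h4 := abs_sub (ev t f) (∑ u ∈ h.2.toFinset, ev u f)
      linarith
    rw [one_div, inv_mul_le_iff₀ (by positivity)]
    exact h1
  · rw [LinearMap.zero_apply, abs_zero]
    exact norm_nonneg _

theorem EF_bound (ρ : T → ℝ) (q : ℚ) (t : T) (f : C₀(T, ℝ)) : |EF ρ q t f| ≤ ‖f‖ := by
  classical
  unfold EF
  split_ifs with h
  · exact abs_apply_le f t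
  · rw [LinearMap.zero_apply, abs_zero]
    exact norm_nonneg _

theorem hh_bound' (ρ : T → ℝ) (γ : Bool × ℚ × T) (f : C₀(T, ℝ)) :
    |hh ρ γ f| ≤ wq γ.2.1 * ‖f‖ := by
  unfold hh
  rw [LinearMap.smul_apply, smul_eq_mul, abs_mul, abs_of_pos (wq_pos _)]
  apply mul_le_mul_of_nonneg_left _ (wq_pos _).le
  split_ifs with h
  · exact EF_bound _ _ _ _
  · exact HF_bound _ _ _ _

theorem hh_bound (ρ : T → ℝ) (γ : Bool × ℚ × T) (f : C₀(T, ℝ)) : |hh ρ γ f| ≤ ‖f‖ := by
  refine (hh_bound' ρ γ f).trans ?_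
  have := mul_le_mul_of_nonneg_right (wq_le_one γ.2.1) (norm_nonneg f)
  rwa [one_mul] at this

theorem EF_path (hT : IsHausdorffTree T) (hτ : IsTreeTopology T τ) (ρ : T → ℝ)
    (q : ℚ) (c : T) : {t | EF ρ q t (path hT hτ c) ≠ 0}.Finite := by
  classical
  apply Set.Subsingleton.finite
  have key : ∀ t, EF ρ q t (path hT hτ c) ≠ 0 → MinAt ρ q t ∧ t ≤ c := by
    intro t ht
    unfold EF at ht
    split_ifs at ht with h
    · refine ⟨h, ?_⟩
      by_contra hcon
      exact ht (path_apply_of_not_le hT hτ hcon)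
    · exact absurd rfl ht
  intro t ht t' ht'
  obtain ⟨h1, h2⟩ := key t ht
  obtain ⟨h1', h2'⟩ := key t' ht'
  rcases hT.chain c t t' h2 h2' with h | h
  · rcases eq_or_lt_of_le h with h3 | h3
    · exact h3
    · have := h1'.2 t h3
      exact absurd h1.1 (not_lt.2 this)
  · rcases eq_or_lt_of_le h with h3 | h3
    · exact h3.symm
    · have := h1.2 t' h3
      exact absurd h1'.1 (not_lt.2 this)

theorem HF_path (hT : IsHausdorffTree T) (hτ : IsTreeTopology T τ) (ρ : T → ℝ) (hρ : Monotone ρ)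
    (q : ℚ) (c : T) : {t | HF ρ q t (path hT hτ c) ≠ 0}.Finite := by
  classical
  have key : ∀ t, HF ρ q t (path hT hτ c) ≠ 0 → ρ t ≤ q ∧
      (t = c ∨ (t < c ∧ ∀ u, t ⋖ u → u ≤ c → (q : ℝ) < ρ u)) := by
    intro t ht
    unfold HF at ht
    split_ifs at ht with h
    · refine ⟨h.1, ?_⟩
      by_contra hcon
      push Not at hcon
      obtain ⟨hne, hlt⟩ := hcon
      apply ht
      rw [LinearMap.smul_apply, LinearMap.sub_apply, _root_.LinearMap.sum_apply]
      have hzero : ev t (path hT hτ c) - ∑ u ∈ h.2.toFinset, ev u (path hT hτ c) = 0 := by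
        by_cases htc : t ≤ c
        · obtain ⟨u, hu1, hu2, hu3⟩ := hlt (lt_of_le_of_ne htc hne)
          have hmem : u ∈ h.2.toFinset := h.2.mem_toFinset.2 ⟨hu1, hu3⟩
          rw [ev_apply, path_apply_of_le hT hτ htc, Finset.sum_eq_single_of_mem u hmem, ev_apply,
            path_apply_of_le hT hτ hu2, sub_self]
          intro v hv hvu
          rw [ev_apply]
          apply path_apply_of_not_le
          intro hvc
          exact hvu (cover_unique hT (h.2.mem_toFinset.1 hv).1 hu1 hvc hu2)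
        · rw [ev_apply, path_apply_of_not_le hT hτ htc, Finset.sum_eq_zero, sub_self]
          intro v hv
          rw [ev_apply]
          apply path_apply_of_not_le
          intro hvc
          exact htc ((h.2.mem_toFinset.1 hv).1.le.trans hvc)
      rw [hzero, smul_zero]
    · exact absurd rfl ht
  have hsub : {t | HF ρ q t (path hT hτ c) ≠ 0} ⊆
      {c} ∪ {t | ρ t ≤ q ∧ t < c ∧ ∀ u, t ⋖ u → u ≤ c → (q : ℝ) < ρ u} := by
    intro t ht
    obtain ⟨h1, h2 | h2⟩ := key t ht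
    · exact Or.inl h2
    · exact Or.inr ⟨h1, h2⟩
  refine ((Set.finite_singleton c).union ?_).subset hsub
  apply Set.Subsingleton.finite
  have aux : ∀ t t' : T, ρ t ≤ q → t' ≤ c → ρ t' ≤ q → (∀ u, t ⋖ u → u ≤ c → (q : ℝ) < ρ u) →
      ¬ t < t' := by
    intro t t' _ h2 h3 h4 hlt
    obtain ⟨u, hu1, hu2⟩ := exists_next hT hlt
    have := h4 u hu1 (hu2.trans h2)
    have := hρ hu2
    linarith
  rintro t ⟨h1, h2, h3⟩ t' ⟨h1', h2', h3'⟩
  rcases hT.chain c t t' h2.le h2'.le with h | h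
  · rcases eq_or_lt_of_le h with h4 | h4
    · exact h4
    · exact absurd h4 (aux t t' h1 h2'.le h1' h3)
  · rcases eq_or_lt_of_le h with h4 | h4
    · exact h4.symm
    · exact absurd h4 (aux t' t h1' h2.le h1 h3')

/-- a family of functionals that is finitely supported on the paths is in `c₀` on everything -/
theorem finite_of_paths (hT : IsHausdorffTree T) (hτ : IsTreeTopology T τ)
    (F : T → C₀(T, ℝ) →ₗ[ℝ] ℝ) (hF : ∀ t f, |F t f| ≤ ‖f‖)
    (hp : ∀ c, {t | F t (path hT hτ c) ≠ 0}.Finite) (f : C₀(T, ℝ)) {δ : ℝ} (hδ : 0 < δ) :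
    {t | δ ≤ |F t f|}.Finite := by
  obtain ⟨g, hg, hgf⟩ := exists_approx (WW hT hτ Set.univ) (WW_mul hT hτ _) f (ε := δ / 2)
    (by
      intro s _
      refine ⟨path hT hτ s, Submodule.subset_span ⟨s, subset_Meets _ trivial, rfl⟩, ?_,
        path_apply_of_le hT hτ (le_refl s)⟩
      intro x
      by_cases hx : x ≤ s
      · exact Or.inr (path_apply_of_le hT hτ hx)
      · exact Or.inl (path_apply_of_not_le hT hτ hx))
    (by
      intro s t hst
      have hne : s ≠ t := fun h => hst (by rw [h])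
      have hid : ∀ c, Idem (path hT hτ c) := by
        intro c x
        by_cases hx : x ≤ c
        · exact Or.inr (path_apply_of_le hT hτ hx)
        · exact Or.inl (path_apply_of_not_le hT hτ hx)
      by_cases hts : t ≤ s
      · have hst' : ¬ s ≤ t := fun h => hne (le_antisymm h hts)
        refine ⟨path hT hτ t, Submodule.subset_span ⟨t, subset_Meets _ trivial, rfl⟩, hid t, ?_⟩
        rw [path_apply_of_le hT hτ (le_refl t), path_apply_of_not_le hT hτ hst']
        norm_num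
      · refine ⟨path hT hτ s, Submodule.subset_span ⟨s, subset_Meets _ trivial, rfl⟩, hid s, ?_⟩
        rw [path_apply_of_le hT hτ (le_refl s), path_apply_of_not_le hT hτ hts]
        norm_num)
    (by linarith)
  have hfin : {t | F t g ≠ 0}.Finite := by
    clear hgf
    induction hg using Submodule.span_induction with
    | mem x hx =>
      obtain ⟨c, _, rfl⟩ := hx
      exact hp c
    | zero => simp
    | add x y _ _ ih1 ih2 =>
      refine (ih1.union ih2).subset ?_
      intro t ht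
      by_contra hcon
      rw [Set.mem_union, not_or] at hcon
      apply ht
      have h1 : F t x = 0 := not_not.1 hcon.1
      have h2 : F t y = 0 := not_not.1 hcon.2
      rw [map_add, h1, h2, add_zero]
    | smul r x _ ih =>
      refine ih.subset ?_
      intro t ht hcon
      apply ht
      rw [map_smul, hcon, smul_zero]
  refine hfin.subset ?_
  intro t ht h0
  have h1 : δ ≤ |F t f| := ht
  have h2 : F t f = F t (f - g) := by rw [map_sub, h0, sub_zero]
  have h3 : ‖f - g‖ ≤ δ / 2 := norm_le_of _ (by linarith) hgf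
  have h4 := hF t (f - g)
  rw [h2] at h1
  linarith

theorem hh_fin (hT : IsHausdorffTree T) (hτ : IsTreeTopology T τ) (ρ : T → ℝ) (hρ : Monotone ρ)
    (f : C₀(T, ℝ)) {δ : ℝ} (hδ : 0 < δ) : {γ | δ ≤ |hh ρ γ f|}.Finite := by
  classical
  have hS : {q : ℚ | δ ≤ wq q * ‖f‖}.Finite := by
    have h1 : {n : ℕ | δ ≤ (1 / 2 : ℝ) ^ n * ‖f‖}.Finite := by
      have h2 : Tendsto (fun n : ℕ => (1 / 2 : ℝ) ^ n * ‖f‖) atTop (𝓝 (0 * ‖f‖)) :=
        (tendsto_pow_atTop_nhds_zero_of_lt_one (by norm_num) (by norm_num)).mul_const _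
      rw [zero_mul] at h2
      obtain ⟨n₀, hn₀⟩ := eventually_atTop.1 (h2.eventually (gt_mem_nhds hδ))
      refine (Set.finite_lt_nat n₀).subset ?_
      intro n hn
      by_contra hcon
      have h3 := hn₀ n (not_lt.1 hcon)
      have h4 : δ ≤ (1 / 2 : ℝ) ^ n * ‖f‖ := hn
      linarith
    have h3 := Set.Finite.preimage (f := fun q : ℚ => Encodable.encode q)
      (Encodable.encode_injective.injOn) h1
    exact h3
  have hq : ∀ (b : Bool) (q : ℚ), {t | δ ≤ |hh ρ (b, q, t) f|}.Finite := by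
    intro b q
    cases b
    · refine (finite_of_paths hT hτ (HF ρ q) (HF_bound ρ q) (HF_path hT hτ ρ hρ q) f hδ).subset ?_
      intro t ht
      have h1 : δ ≤ |hh ρ (false, q, t) f| := ht
      have h2 : hh ρ (false, q, t) f = wq q * HF ρ q t f := by
        unfold hh
        simp
      rw [h2, abs_mul, abs_of_pos (wq_pos q)] at h1
      have h3 := mul_le_mul_of_nonneg_right (wq_le_one q) (abs_nonneg (HF ρ q t f))
      show δ ≤ |HF ρ q t f|
      linarith
    · refine (finite_of_paths hT hτ (EF ρ q) (EF_bound ρ q) (EF_path hT hτ ρ q) f hδ).subset ?_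
      intro t ht
      have h1 : δ ≤ |hh ρ (true, q, t) f| := ht
      have h2 : hh ρ (true, q, t) f = wq q * EF ρ q t f := by
        unfold hh
        simp
      rw [h2, abs_mul, abs_of_pos (wq_pos q)] at h1
      have h3 := mul_le_mul_of_nonneg_right (wq_le_one q) (abs_nonneg (EF ρ q t f))
      show δ ≤ |EF ρ q t f|
      linarith
  have hfin : (⋃ b : Bool, ⋃ q ∈ {q : ℚ | δ ≤ wq q * ‖f‖},
      (fun t => (b, q, t)) '' {t | δ ≤ |hh ρ (b, q, t) f|}).Finite := by
    apply Set.finite_iUnion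
    intro b
    apply hS.biUnion
    intro q _
    exact (hq b q).image _
  refine hfin.subset ?_
  rintro ⟨b, q, t⟩ h
  have h1 : δ ≤ |hh ρ (b, q, t) f| := h
  refine Set.mem_iUnion.2 ⟨b, Set.mem_iUnion₂.2 ⟨q, ?_, ⟨t, h1, rfl⟩⟩⟩
  exact h1.trans (hh_bound' ρ (b, q, t) f)

end op

end Pool.Agent.H17.HS
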