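import Pool.Agent.H17.HS.Lur
import Pool.Agent.H14WH.Lur

/-!
# Permanence of locally uniformly rotund renormability
-/

set_option autoImplicit false
open Filter Topology

namespace Pool.Agent.H17.HS

open Pool.Agent.H14WH

section perm

variable {X : Type*} [NormedAddCommGroup X] [NormedSpace ℝ X]
variable {Z : Type*} [NormedAddCommGroup Z] [NormedSpace ℝ Z]

theorem isQ_of_equiv {N : X → ℝ} (hN : IsEquivNorm N) : IsQ fun x => N x ^ 2 :=
  isQ_sq_of_seminorm hN.nonneg hN.add_le hN.smul_eq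

theorem lur_of_defect {N : X → ℝ} (hN : IsEquivNorm N)
    (hl : ∀ (x : X) (u : ℕ → X), N x = 1 → (∀ n, N (u n) = 1) →
      Tendsto (fun n => N (u n + x)) atTop (𝓝 2) → Tendsto (fun n => N (u n - x)) atTop (𝓝 0))
    (x : X) (u : ℕ → X) (hd : Tendsto (fun n => defect (fun y => N y ^ 2) x (u n)) atTop (𝓝 0)) :
    Tendsto (fun n => N (u n - x)) atTop (𝓝 0) := by
  have hsq : ∀ n, (N x - N (u n)) ^ 2 ≤ defect (fun y => N y ^ 2) x (u n) := by
    intro n
    unfold defect
    simp only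
    have h1 := hN.add_le x (u n)
    have h2 : N (x + u n) ^ 2 ≤ (N x + N (u n)) ^ 2 := pow_le_pow_left₀ (hN.nonneg _) h1 2
    nlinarith
  have hlim1 : Tendsto (fun n => |N x - N (u n)|) atTop (𝓝 0) := by
    have h1 : Tendsto (fun n => (N x - N (u n)) ^ 2) atTop (𝓝 0) :=
      squeeze_zero (fun n => sq_nonneg _) hsq hd
    have h3 := h1.sqrt
    simpa [Real.sqrt_sq_eq_abs] using h3
  have hlimu : Tendsto (fun n => N (u n)) atTop (𝓝 (N x)) := by
    have h4 : Tendsto (fun n => N x - N (u n)) atTop (𝓝 0) :=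
      (tendsto_zero_iff_abs_tendsto_zero _).2 hlim1
    have h5 : Tendsto (fun n => N x - (N x - N (u n))) atTop (𝓝 (N x - 0)) :=
      tendsto_const_nhds.sub h4
    simpa using h5
  by_cases hx0 : x = 0
  · subst hx0
    rw [hN.zero] at hlimu
    simpa using hlimu
  · have hpos : 0 < N x := hN.pos hx0
    set a := N x with ha
    -- renormalised sequence
    let v : ℕ → X := fun n => if N (u n) = 0 then x else (a / N (u n)) • u n
    have hv : ∀ n, N (v n) = a := by
      intro n
      by_cases h : N (u n) = 0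
      · have : v n = x := if_pos h
        rw [this]
      · have : v n = (a / N (u n)) • u n := if_neg h
        rw [this, hN.smul_eq, abs_of_nonneg (div_nonneg hpos.le (hN.nonneg _)), div_mul_cancel₀ _ h]
    have hev : ∀ᶠ n in atTop, N (u n) ≠ 0 := by
      filter_upwards [hlimu.eventually (lt_mem_nhds hpos)] with n hn
      exact hn.ne'
    have hdiff : Tendsto (fun n => N (u n - v n)) atTop (𝓝 0) := by
      refine hlim1.congr' ?_
      filter_upwards [hev] with n hn
      have h1 : v n = (a / N (u n)) • u n := if_neg hn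
      have h2 : u n - v n = (1 - a / N (u n)) • u n := by
        rw [h1, sub_smul, one_smul]
      rw [h2, hN.smul_eq]
      have h3 : 0 < N (u n) := lt_of_le_of_ne (hN.nonneg _) (Ne.symm hn)
      have h4 : |1 - a / N (u n)| * N (u n) = |(1 - a / N (u n)) * N (u n)| := by
        rw [abs_mul, abs_of_pos h3]
      rw [h4]
      have h5 : (1 - a / N (u n)) * N (u n) = N (u n) - a := by
        rw [sub_mul, one_mul, div_mul_cancel₀ _ hn]
      rw [h5, abs_sub_comm]
    -- the sum
    have hsum : Tendsto (fun n => N (x + u n)) atTop (𝓝 (2 * a)) := by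
      have h1 : Tendsto (fun n => 2 * a ^ 2 + 2 * N (u n) ^ 2 -
          defect (fun y => N y ^ 2) x (u n)) atTop (𝓝 (2 * a ^ 2 + 2 * a ^ 2 - 0)) :=
        ((tendsto_const_nhds.add ((hlimu.pow 2).const_mul 2)).sub hd)
      have h2 : ∀ n, 2 * a ^ 2 + 2 * N (u n) ^ 2 - defect (fun y => N y ^ 2) x (u n) =
          N (x + u n) ^ 2 := by
        intro n
        unfold defect
        simp only
        rw [← ha]
        ring
      have h3 : Tendsto (fun n => N (x + u n) ^ 2) atTop (𝓝 ((2 * a) ^ 2)) := by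
        have h4 : (2 * a ^ 2 + 2 * a ^ 2 - 0 : ℝ) = (2 * a) ^ 2 := by ring
        rw [h4] at h1
        exact h1.congr h2
      have h5 := h3.sqrt
      have h6 : ∀ n, Real.sqrt (N (x + u n) ^ 2) = N (x + u n) := fun n =>
        Real.sqrt_sq (hN.nonneg _)
      have h7 : Real.sqrt ((2 * a) ^ 2) = 2 * a := Real.sqrt_sq (by linarith)
      rw [h7] at h5
      exact h5.congr h6
    have hsumv : Tendsto (fun n => N (v n + x)) atTop (𝓝 (2 * a)) := by
      have h1 : Tendsto (fun n => N (x + u n) - N (u n - v n)) atTop (𝓝 (2 * a - 0)) :=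
        hsum.sub hdiff
      rw [sub_zero] at h1
      refine tendsto_of_tendsto_of_tendsto_of_le_of_le h1 tendsto_const_nhds ?_ ?_
      · intro n
        have h2 := hN.add_le (v n + x) (u n - v n)
        have h3 : v n + x + (u n - v n) = x + u n := by abel
        rw [h3] at h2
        show N (x + u n) - N (u n - v n) ≤ N (v n + x)
        linarith
      · intro n
        have h2 := hN.add_le (v n) x
        rw [hv n] at h2
        show N (v n + x) ≤ 2 * a
        linarith
    have hfin := hl (a⁻¹ • x) (fun n => a⁻¹ • v n)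
      (by rw [hN.smul_eq, abs_of_pos (inv_pos.2 hpos), ← ha, inv_mul_cancel₀ hpos.ne'])
      (fun n => by rw [hN.smul_eq, abs_of_pos (inv_pos.2 hpos), hv n, inv_mul_cancel₀ hpos.ne'])
      (by
        have h1 := hsumv.const_mul a⁻¹
        have h2 : a⁻¹ * (2 * a) = 2 := by
          field_simp
        rw [h2] at h1
        refine h1.congr fun n => ?_
        rw [← smul_add, hN.smul_eq, abs_of_pos (inv_pos.2 hpos)])
    have hvx : Tendsto (fun n => N (v n - x)) atTop (𝓝 0) := by
      have h1 := hfin.const_mul a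
      rw [mul_zero] at h1
      refine h1.congr fun n => ?_
      rw [← smul_sub, hN.smul_eq, abs_of_pos (inv_pos.2 hpos), ← mul_assoc,
        mul_inv_cancel₀ hpos.ne', one_mul]
    have h1 : Tendsto (fun n => N (u n - v n) + N (v n - x)) atTop (𝓝 (0 + 0)) := hdiff.add hvx
    rw [add_zero] at h1
    refine squeeze_zero (fun n => hN.nonneg _) (fun n => ?_) h1
    have h2 := hN.add_le (u n - v n) (v n - x)
    have h3 : u n - v n + (v n - x) = u n - x := by abel
    rwa [h3] at h2

/-- products -/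
theorem lurRenormable_prod (hX : LURRenormable X) (hZ : LURRenormable Z) :
    LURRenormable (X × Z) := by
  obtain ⟨N, hN, hl⟩ := hX
  obtain ⟨M, hM, hm⟩ := hZ
  have hQ1 : IsQ fun p : X × Z => N p.1 ^ 2 := by
    have h := isQ_of_equiv hN
    exact ⟨fun p => h.nonneg p.1, fun c p => h.homog c p.1,
      fun a b p q ha hb hab => h.conv a b p.1 q.1 ha hb hab⟩
  have hQ2 : IsQ fun p : X × Z => M p.2 ^ 2 := by
    have h := isQ_of_equiv hM
    exact ⟨fun p => h.nonneg p.2, fun c p => h.homog c p.2,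
      fun a b p q ha hb hab => h.conv a b p.2 q.2 ha hb hab⟩
  have hQ := hQ1.add hQ2
  obtain ⟨a, b, ha, hb, hab⟩ := hN.equiv
  obtain ⟨a', b', ha', hb', hab'⟩ := hM.equiv
  refine ⟨fun p => Real.sqrt (N p.1 ^ 2 + M p.2 ^ 2), ⟨hQ.sqrt_add_le, ?_,
    min a a', b + b', lt_min ha ha', add_pos hb hb', ?_⟩, ?_⟩
  · intro c p
    show Real.sqrt (N (c • p).1 ^ 2 + M (c • p).2 ^ 2) = |c| * Real.sqrt (N p.1 ^ 2 + M p.2 ^ 2)
    have h1 : N (c • p).1 ^ 2 + M (c • p).2 ^ 2 = c ^ 2 * (N p.1 ^ 2 + M p.2 ^ 2) := hQ.homog c p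
    rw [h1, Real.sqrt_mul (sq_nonneg c), Real.sqrt_sq_eq_abs]
  · intro p
    have hp1 : ‖p.1‖ ≤ ‖p‖ := norm_fst_le p
    have hp2 : ‖p.2‖ ≤ ‖p‖ := norm_snd_le p
    constructor
    · have h1 : min a a' * ‖p.1‖ ≤ N p.1 :=
        (mul_le_mul_of_nonneg_right (min_le_left _ _) (norm_nonneg _)).trans (hab p.1).1
      have h2 : min a a' * ‖p.2‖ ≤ M p.2 :=
        (mul_le_mul_of_nonneg_right (min_le_right _ _) (norm_nonneg _)).trans (hab' p.2).1
      have h3 : N p.1 ≤ Real.sqrt (N p.1 ^ 2 + M p.2 ^ 2) :=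
        Real.le_sqrt_of_sq_le (by nlinarith [sq_nonneg (M p.2)])
      have h4 : M p.2 ≤ Real.sqrt (N p.1 ^ 2 + M p.2 ^ 2) :=
        Real.le_sqrt_of_sq_le (by nlinarith [sq_nonneg (N p.1)])
      rcases max_choice ‖p.1‖ ‖p.2‖ with h5 | h5
      · have h6 : ‖p‖ = ‖p.1‖ := by rw [Prod.norm_def, h5]
        rw [h6]
        exact h1.trans h3
      · have h6 : ‖p‖ = ‖p.2‖ := by rw [Prod.norm_def, h5]
        rw [h6]
        exact h2.trans h4
    · rw [Real.sqrt_le_left (by positivity)]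
      have h1 : N p.1 ≤ b * ‖p‖ := (hab p.1).2.trans (mul_le_mul_of_nonneg_left hp1 hb.le)
      have h2 : M p.2 ≤ b' * ‖p‖ := (hab' p.2).2.trans (mul_le_mul_of_nonneg_left hp2 hb'.le)
      have h3 : N p.1 ^ 2 ≤ (b * ‖p‖) ^ 2 := pow_le_pow_left₀ (hN.nonneg _) h1 2
      have h4 : M p.2 ^ 2 ≤ (b' * ‖p‖) ^ 2 := pow_le_pow_left₀ (hM.nonneg _) h2 2
      have h5 : 0 ≤ b * ‖p‖ := mul_nonneg hb.le (norm_nonneg _)
      have h6 : 0 ≤ b' * ‖p‖ := mul_nonneg hb'.le (norm_nonneg _)
      nlinarith [mul_nonneg h5 h6]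
  · intro p u hp hu hlim
    simp only at hp hu hlim ⊢
    have hd : ∀ n, defect (fun p : X × Z => N p.1 ^ 2 + M p.2 ^ 2) p (u n) =
        4 - Real.sqrt (N (u n + p).1 ^ 2 + M (u n + p).2 ^ 2) ^ 2 := by
      intro n
      have e1 : N p.1 ^ 2 + M p.2 ^ 2 = 1 := by
        have h1 : Real.sqrt (N p.1 ^ 2 + M p.2 ^ 2) ^ 2 = N p.1 ^ 2 + M p.2 ^ 2 :=
          Real.sq_sqrt (hQ.nonneg p)
        rw [hp] at h1
        linarith
      have e2 : N (u n).1 ^ 2 + M (u n).2 ^ 2 = 1 := by
        have h1 : Real.sqrt (N (u n).1 ^ 2 + M (u n).2 ^ 2) ^ 2 = N (u n).1 ^ 2 + M (u n).2 ^ 2 :=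
          Real.sq_sqrt (hQ.nonneg (u n))
        rw [hu n] at h1
        linarith
      have e3 : Real.sqrt (N (u n + p).1 ^ 2 + M (u n + p).2 ^ 2) ^ 2 =
          N (u n + p).1 ^ 2 + M (u n + p).2 ^ 2 := Real.sq_sqrt (hQ.nonneg (u n + p))
      rw [e3]
      unfold defect
      simp only
      rw [e1, e2, add_comm p (u n)]
      ring
    have hd0 : Tendsto (fun n => defect (fun p : X × Z => N p.1 ^ 2 + M p.2 ^ 2) p (u n)) atTop
        (𝓝 0) := by
      have h1 : Tendsto (fun n => 4 - Real.sqrt (N (u n + p).1 ^ 2 + M (u n + p).2 ^ 2) ^ 2) atTop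
          (𝓝 (4 - 2 ^ 2)) := tendsto_const_nhds.sub (hlim.pow 2)
      have h3 : (4 : ℝ) - 2 ^ 2 = 0 := by norm_num
      rw [h3] at h1
      exact h1.congr fun n => (hd n).symm
    have hsplit : ∀ n, defect (fun p : X × Z => N p.1 ^ 2 + M p.2 ^ 2) p (u n) =
        defect (fun y => N y ^ 2) p.1 (u n).1 + defect (fun y => M y ^ 2) p.2 (u n).2 := by
      intro n
      unfold defect
      simp only [Prod.fst_add, Prod.snd_add]
      ring
    have hd1 : Tendsto (fun n => defect (fun y => N y ^ 2) p.1 (u n).1) atTop (𝓝 0) := by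
      refine squeeze_zero (fun n => (isQ_of_equiv hN).defect_nonneg _ _) (fun n => ?_) hd0
      rw [hsplit]
      have := (isQ_of_equiv hM).defect_nonneg p.2 (u n).2
      linarith
    have hd2 : Tendsto (fun n => defect (fun y => M y ^ 2) p.2 (u n).2) atTop (𝓝 0) := by
      refine squeeze_zero (fun n => (isQ_of_equiv hM).defect_nonneg _ _) (fun n => ?_) hd0
      rw [hsplit]
      have := (isQ_of_equiv hN).defect_nonneg p.1 (u n).1
      linarith
    have c1 := lur_of_defect hN hl p.1 (fun n => (u n).1) hd1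
    have c2 := lur_of_defect hM hm p.2 (fun n => (u n).2) hd2
    have c3 := ((c1.pow 2).add (c2.pow 2)).sqrt
    simpa using c3

/-- subspaces, up to isomorphism -/
theorem lurRenormable_of_embedding (hX : LURRenormable X) (J : Z →L[ℝ] X) {c : ℝ} (hc : 0 < c)
    (hJ : ∀ z, c * ‖z‖ ≤ ‖J z‖) : LURRenormable Z := by
  obtain ⟨N, hN, hl⟩ := hX
  obtain ⟨a, b, ha, hb, hab⟩ := hN.equiv
  refine ⟨fun z => N (J z), ⟨?_, ?_, a * c, b * (‖J‖ + 1), mul_pos ha hc,
    mul_pos hb (by have := norm_nonneg J; linarith), ?_⟩, ?_⟩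
  · intro x y
    rw [map_add]
    exact hN.add_le _ _
  · intro t x
    rw [map_smul]
    exact hN.smul_eq _ _
  · intro z
    constructor
    · have h1 := mul_le_mul_of_nonneg_left (hJ z) ha.le
      rw [mul_assoc]
      exact h1.trans (hab (J z)).1
    · have h1 : ‖J z‖ ≤ (‖J‖ + 1) * ‖z‖ := by
        have h2 := J.le_opNorm z
        have h3 := norm_nonneg z
        nlinarith
      rw [mul_assoc]
      exact (hab (J z)).2.trans (mul_le_mul_of_nonneg_left h1 hb.le)
  · intro z u hz hu hlim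
    simp only at hz hu hlim ⊢
    have h1 : Tendsto (fun n => N (J (u n) + J z)) atTop (𝓝 2) := by
      refine hlim.congr fun n => ?_
      rw [map_add]
    have h2 := hl (J z) (fun n => J (u n)) hz hu h1
    refine h2.congr fun n => ?_
    rw [map_sub]

end perm

end Pool.Agent.H17.HS
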