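import Pool.Agent.H14WH.Lur
import Pool.Agent.H17.HS.Op

/-!
# Strictly convex norms on `C₀(T)`, necessity for all trees
-/

set_option autoImplicit false
open Filter Topology Set
open scoped ZeroAtInfty

namespace Pool.Agent.H17.HS

open Pool.Agent.H14WH

section sc

variable {T : Type*} [PartialOrder T] [τ : TopologicalSpace T]

/-- convex combinations of the paths above `s` -/
noncomputable def HC (hT : IsHausdorffTree T) (hτ : IsTreeTopology T τ) (s : T) :
    Set C₀(T, ℝ) := convexHull ℝ {g | ∃ t, s ≤ t ∧ path hT hτ t = g}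

theorem HC_anti (hT : IsHausdorffTree T) (hτ : IsTreeTopology T τ) {s s' : T} (h : s ≤ s') :
    HC hT hτ s' ⊆ HC hT hτ s := by
  apply convexHull_mono
  rintro g ⟨t, ht, rfl⟩
  exact ⟨t, h.trans ht, rfl⟩

theorem HC_prop (hT : IsHausdorffTree T) (hτ : IsTreeTopology T τ) {s : T} {f : C₀(T, ℝ)}
    (hf : f ∈ HC hT hτ s) : (∀ u, 0 ≤ f u ∧ f u ≤ 1) ∧ (∀ u, u ≤ s → f u = 1) ∧
      (∀ u, ¬ u ≤ s → ¬ s ≤ u → f u = 0) := by
  let C : Set C₀(T, ℝ) := {f | (∀ u, 0 ≤ f u ∧ f u ≤ 1) ∧ (∀ u, u ≤ s → f u = 1) ∧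
      (∀ u, ¬ u ≤ s → ¬ s ≤ u → f u = 0)}
  have hC : Convex ℝ C := by
    rintro f ⟨h1, h2, h3⟩ g ⟨h1', h2', h3'⟩ a b ha hb hab
    refine ⟨fun u => ?_, fun u hu => ?_, fun u hu hu' => ?_⟩
    · show 0 ≤ a * f u + b * g u ∧ a * f u + b * g u ≤ 1
      obtain ⟨p1, p2⟩ := h1 u
      obtain ⟨q1, q2⟩ := h1' u
      constructor
      · exact add_nonneg (mul_nonneg ha p1) (mul_nonneg hb q1)
      · have := mul_le_mul_of_nonneg_left p2 ha
        have := mul_le_mul_of_nonneg_left q2 hb
        linarith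
    · show a * f u + b * g u = 1
      rw [h2 u hu, h2' u hu]
      linarith
    · show a * f u + b * g u = 0
      rw [h3 u hu hu', h3' u hu hu']
      ring
  have hsub : HC hT hτ s ⊆ C := by
    apply convexHull_min _ hC
    rintro g ⟨t, ht, rfl⟩
    refine ⟨fun u => ?_, fun u hu => path_apply_of_le hT hτ (hu.trans ht), fun u hu hu' => ?_⟩
    · by_cases h : u ≤ t
      · rw [path_apply_of_le hT hτ h]
        norm_num
      · rw [path_apply_of_not_le hT hτ h]
        norm_num
    · apply path_apply_of_not_le hT hτ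
      intro h
      rcases hT.chain t u s h ht with h1 | h1
      · exact hu h1
      · exact hu' h1
  exact hsub hf

omit [PartialOrder T] in
theorem continuous_ev (u : T) : Continuous fun f : C₀(T, ℝ) => f u := by
  have : LipschitzWith 1 fun f : C₀(T, ℝ) => f u := by
    apply LipschitzWith.of_dist_le_mul
    intro f g
    rw [NNReal.coe_one, one_mul, Real.dist_eq, dist_eq_norm]
    exact abs_apply_le (f - g) u
  exact this.continuous

/-- If `C₀(T)` has an equivalent strictly convex norm then there is an increasing real function on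
`T` that is constant on no ever-branching subset. -/
theorem exists_increasing_of_sc (hT : IsHausdorffTree T) (hτ : IsTreeTopology T τ)
    (hsc : StrictlyConvexRenormable C₀(T, ℝ)) :
    ∃ ρ : T → ℝ, Monotone ρ ∧ ∀ E : Set T, EverBranching E → ∃ s ∈ E, ∃ t ∈ E, ρ s ≠ ρ t := by
  classical
  obtain ⟨N, hN, hunit⟩ := hsc
  have hstrict := strict_of_unit hN hunit
  have hbdd : ∀ s : T, BddBelow (N '' HC hT hτ s) := fun s =>
    ⟨0, by rintro _ ⟨x, _, rfl⟩; exact hN.nonneg x⟩
  have hne : ∀ s : T, (N '' HC hT hτ s).Nonempty := fun s =>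
    ⟨_, _, subset_convexHull ℝ _ ⟨s, le_refl s, rfl⟩, rfl⟩
  have hmono : Monotone fun s : T => sInf (N '' HC hT hτ s) := by
    intro s s' h
    exact csInf_le_csInf (hbdd s) (hne s') (Set.image_mono (HC_anti hT hτ h))
  refine ⟨fun s => sInf (N '' HC hT hτ s), hmono, ?_⟩
  intro E hE
  by_contra hcon
  push Not at hcon
  obtain ⟨⟨e0, he0⟩, hbr⟩ := hE
  have hex : ∀ e : E, ∃ ab : E × E, (e : T) ≤ ab.1 ∧ (e : T) ≤ ab.2 ∧
      ¬ (ab.1 : T) ≤ ab.2 ∧ ¬ (ab.2 : T) ≤ ab.1 := by
    intro e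
    obtain ⟨a, ha, b, hb, h1, h2, h3, h4⟩ := hbr e e.2
    exact ⟨(⟨a, ha⟩, ⟨b, hb⟩), h1, h2, h3, h4⟩
  choose ch hch1 hch2 hch3 hch4 using hex
  let t' : List Bool → E := fun σ => List.rec (⟨e0, he0⟩ : E)
    (fun b _ e => if b = true then (ch e).1 else (ch e).2) σ
  have ht' : ∀ b σ, t' (b :: σ) = if b = true then (ch (t' σ)).1 else (ch (t' σ)).2 :=
    fun b σ => rfl
  let t : List Bool → T := fun σ => (t' σ).1
  have hle : ∀ (σ : List Bool) (b : Bool), t σ ≤ t (b :: σ) := by
    intro σ b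
    show (t' σ).1 ≤ (t' (b :: σ)).1
    rw [ht']
    cases b
    · exact hch2 _
    · exact hch1 _
  have hinc : ∀ σ, ¬ t (true :: σ) ≤ t (false :: σ) ∧ ¬ t (false :: σ) ≤ t (true :: σ) := by
    intro σ
    show ¬ (t' (true :: σ)).1 ≤ (t' (false :: σ)).1 ∧ ¬ (t' (false :: σ)).1 ≤ (t' (true :: σ)).1
    rw [ht', ht']
    exact ⟨hch3 _, hch4 _⟩
  set c : ℝ := sInf (N '' HC hT hτ (t [])) with hc
  have hinf : ∀ σ, sInf (N '' HC hT hτ (t σ)) = c := fun σ =>
    hcon (t σ) (t' σ).2 (t []) (t' []).2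
  have hlow : ∀ σ, ∀ f ∈ HC hT hτ (t σ), c ≤ N f := by
    intro σ f hf
    rw [← hinf σ]
    exact csInf_le (hbdd _) ⟨f, hf, rfl⟩
  have hg : ∀ σ : List Bool, ∃ f ∈ HC hT hτ (t σ), N f < c + (1 / 2 : ℝ) ^ σ.length := by
    intro σ
    obtain ⟨_, ⟨f, hf, rfl⟩, hlt⟩ := exists_lt_of_csInf_lt (hne (t σ))
      (show sInf (N '' HC hT hτ (t σ)) < c + (1 / 2 : ℝ) ^ σ.length by
        rw [hinf σ]
        have : (0 : ℝ) < (1 / 2 : ℝ) ^ σ.length := by positivity
        linarith)
    exact ⟨f, hf, hlt⟩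
  choose g hgH hgN using hg
  let G : ℕ → List Bool → C₀(T, ℝ) := fun k => Nat.rec g
    (fun _ F σ => (1 / 2 : ℝ) • F (true :: σ) + (1 / 2 : ℝ) • F (false :: σ)) k
  have hG : ∀ k σ, G (k + 1) σ = (1 / 2 : ℝ) • G k (true :: σ) + (1 / 2 : ℝ) • G k (false :: σ) :=
    fun k σ => rfl
  have hGH : ∀ k σ, G k σ ∈ HC hT hτ (t σ) := by
    intro k
    induction k with
    | zero => exact hgH
    | succ k ih =>
      intro σ
      rw [hG]
      exact convex_convexHull ℝ _ (HC_anti hT hτ (hle σ true) (ih (true :: σ)))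
        (HC_anti hT hτ (hle σ false) (ih (false :: σ))) (by norm_num) (by norm_num) (by norm_num)
  have hGN : ∀ k (σ : List Bool), N (G k σ) ≤ c + (1 / 2 : ℝ) ^ (σ.length + k) := by
    intro k
    induction k with
    | zero =>
      intro σ
      exact (hgN σ).le
    | succ k ih =>
      intro σ
      rw [hG]
      have h1 := hN.add_le ((1 / 2 : ℝ) • G k (true :: σ)) ((1 / 2 : ℝ) • G k (false :: σ))
      rw [hN.smul_eq, hN.smul_eq, abs_of_nonneg (by norm_num : (0 : ℝ) ≤ 1 / 2)] at h1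
      have h2 := ih (true :: σ)
      have h3 := ih (false :: σ)
      rw [List.length_cons] at h2 h3
      have e : σ.length + 1 + k = σ.length + (k + 1) := by ring
      rw [e] at h2 h3
      linarith
  have hsupp : ∀ k σ u, ¬ t σ < u → G (k + 1) σ u = G k σ u := by
    intro k σ u hu
    obtain ⟨-, p1, p2⟩ := HC_prop hT hτ (hGH k σ)
    obtain ⟨-, q1, q2⟩ := HC_prop hT hτ (hGH (k + 1) σ)
    by_cases h : u ≤ t σ
    · rw [p1 u h, q1 u h]
    · have h' : ¬ t σ ≤ u := by
        intro h2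
        rcases eq_or_lt_of_le h2 with h3 | h3
        · exact h h3.symm.le
        · exact hu h3
      rw [p2 u h h', q2 u h h']
  have hdiff : ∀ k σ u, |G (k + 1) σ u - G k σ u| ≤ (1 / 2 : ℝ) ^ k := by
    intro k
    induction k with
    | zero =>
      intro σ u
      obtain ⟨p, -, -⟩ := HC_prop hT hτ (hGH 0 σ)
      obtain ⟨q, -, -⟩ := HC_prop hT hτ (hGH 1 σ)
      have h1 := p u
      have h2 : 0 ≤ G (0 + 1) σ u ∧ G (0 + 1) σ u ≤ 1 := q u
      rw [pow_zero, abs_le]
      constructor <;> linarith [h1.1, h1.2, h2.1, h2.2]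
    | succ k ih =>
      intro σ u
      have e : G (k + 1 + 1) σ u - G (k + 1) σ u =
          1 / 2 * (G (k + 1) (true :: σ) u - G k (true :: σ) u) +
          1 / 2 * (G (k + 1) (false :: σ) u - G k (false :: σ) u) := by
        have e1 : G (k + 1 + 1) σ u = 1 / 2 * G (k + 1) (true :: σ) u +
            1 / 2 * G (k + 1) (false :: σ) u := rfl
        have e2 : G (k + 1) σ u = 1 / 2 * G k (true :: σ) u + 1 / 2 * G k (false :: σ) u := rfl
        rw [e1, e2]
        ring
      rw [e]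
      have h1 := ih (true :: σ) u
      have h2 := ih (false :: σ) u
      have hpow : (1 / 2 : ℝ) ^ (k + 1) = 1 / 2 * (1 / 2 : ℝ) ^ k := by ring
      rw [hpow]
      by_cases ht1 : t (true :: σ) < u
      · have ht0 : ¬ t (false :: σ) < u := by
          intro ht0
          rcases hT.chain u _ _ ht1.le ht0.le with h | h
          · exact (hinc σ).1 h
          · exact (hinc σ).2 h
        rw [hsupp k (false :: σ) u ht0, sub_self, mul_zero, add_zero, abs_mul,
          abs_of_nonneg (by norm_num : (0 : ℝ) ≤ 1 / 2)]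
        linarith
      · rw [hsupp k (true :: σ) u ht1, sub_self, mul_zero, zero_add, abs_mul,
          abs_of_nonneg (by norm_num : (0 : ℝ) ≤ 1 / 2)]
        linarith
  have hcau : ∀ σ, CauchySeq fun k => G k σ := by
    intro σ
    apply cauchySeq_of_le_geometric (1 / 2) 1 (by norm_num)
    intro k
    rw [dist_comm, dist_eq_norm, one_mul]
    exact norm_le_of _ (by positivity) fun u => hdiff k σ u
  have hlim : ∀ σ, ∃ l, Tendsto (fun k => G k σ) atTop (𝓝 l) := fun σ =>
    cauchySeq_tendsto_of_complete (hcau σ)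
  choose L hL using hlim
  have hNL : ∀ σ, N (L σ) = c := by
    intro σ
    have h1 : Tendsto (fun k => N (G k σ)) atTop (𝓝 (N (L σ))) :=
      (hN.continuous.tendsto _).comp (hL σ)
    have h2 : Tendsto (fun k : ℕ => c + (1 / 2 : ℝ) ^ (σ.length + k)) atTop (𝓝 (c + 0)) := by
      apply tendsto_const_nhds.add
      have h3 : Tendsto (fun k : ℕ => (1 / 2 : ℝ) ^ σ.length * (1 / 2 : ℝ) ^ k) atTop
          (𝓝 ((1 / 2 : ℝ) ^ σ.length * 0)) :=
        (tendsto_pow_atTop_nhds_zero_of_lt_one (by norm_num) (by norm_num)).const_mul _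
      rw [mul_zero] at h3
      refine h3.congr fun k => ?_
      rw [pow_add]
    rw [add_zero] at h2
    apply le_antisymm
    · exact le_of_tendsto_of_tendsto' h1 h2 fun k => hGN k σ
    · exact ge_of_tendsto' h1 fun k => hlow σ _ (hGH k σ)
  have hLsplit : L [] = (1 / 2 : ℝ) • L [true] + (1 / 2 : ℝ) • L [false] := by
    have h1 : Tendsto (fun k => G (k + 1) []) atTop (𝓝 (L [])) :=
      (hL []).comp (tendsto_add_atTop_nat 1)
    have h2 : Tendsto (fun k => (1 / 2 : ℝ) • G k [true] + (1 / 2 : ℝ) • G k [false]) atTop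
        (𝓝 ((1 / 2 : ℝ) • L [true] + (1 / 2 : ℝ) • L [false])) :=
      ((hL [true]).const_smul _).add ((hL [false]).const_smul _)
    exact tendsto_nhds_unique h1 h2
  have hsum : N (L [true] + L [false]) = 2 * N (L [true]) := by
    have h1 : L [true] + L [false] = (2 : ℝ) • L [] := by
      rw [hLsplit]
      apply ZeroAtInftyContinuousMap.ext
      intro x
      show L [true] x + L [false] x = 2 * (1 / 2 * L [true] x + 1 / 2 * L [false] x)
      ring
    rw [h1, hN.smul_eq, hNL, hNL]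
    norm_num
  have heq : L [true] = L [false] := hstrict _ _ (by rw [hNL, hNL]) hsum
  have hev1 : L [true] (t [true]) = 1 := by
    have h1 : Tendsto (fun k => G k [true] (t [true])) atTop (𝓝 (L [true] (t [true]))) :=
      ((continuous_ev (t [true])).tendsto _).comp (hL [true])
    have h2 : Tendsto (fun k => G k [true] (t [true])) atTop (𝓝 1) := by
      refine tendsto_const_nhds.congr fun k => ?_
      exact ((HC_prop hT hτ (hGH k [true])).2.1 _ (le_refl _)).symm
    exact tendsto_nhds_unique h1 h2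
  have hev0 : L [false] (t [true]) = 0 := by
    have h1 : Tendsto (fun k => G k [false] (t [true])) atTop (𝓝 (L [false] (t [true]))) :=
      ((continuous_ev (t [true])).tendsto _).comp (hL [false])
    have h2 : Tendsto (fun k => G k [false] (t [true])) atTop (𝓝 0) := by
      refine tendsto_const_nhds.congr fun k => ?_
      exact ((HC_prop hT hτ (hGH k [false])).2.2 _ (hinc []).1 (hinc []).2).symm
    exact tendsto_nhds_unique h1 h2
  rw [heq, hev0] at hev1
  norm_num at hev1

end sc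

end Pool.Agent.H17.HS
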