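import Pool.Agent.H14WH.Tree

/-!
# Lemmas on Hausdorff trees
-/

set_option autoImplicit false
open Filter Topology Set
open scoped ZeroAtInfty

namespace Pool.Agent.H17.HS

open Pool.Agent.H14WH

section order

variable {T : Type*} [PartialOrder T]

theorem le_of_lt_cover (hT : IsHausdorffTree T) {β u x : T} (h : β ⋖ u) (hx : x < u) : x ≤ β := by
  rcases hT.chain u x β hx.le h.lt.le with h1 | h1
  · exact h1
  · rcases eq_or_lt_of_le h1 with h2 | h2
    · exact h2.symm.le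
    · exact absurd hx (h.2 h2)

theorem cover_unique (hT : IsHausdorffTree T) {β u u' y : T} (h : β ⋖ u) (h' : β ⋖ u')
    (hy : u ≤ y) (hy' : u' ≤ y) : u = u' := by
  rcases hT.chain y u u' hy hy' with h1 | h1
  · rcases eq_or_lt_of_le h1 with h2 | h2
    · exact h2
    · exact absurd h2 (h'.2 h.lt)
  · rcases eq_or_lt_of_le h1 with h2 | h2
    · exact h2.symm
    · exact absurd h2 (h.2 h'.lt)

theorem exists_next (hT : IsHausdorffTree T) {t w : T} (h : t < w) : ∃ u, t ⋖ u ∧ u ≤ w := by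
  obtain ⟨u, ⟨hu1, hu2⟩, hmin⟩ := hT.wf.has_min {x | t < x ∧ x ≤ w} ⟨w, h, le_refl w⟩
  exact ⟨u, ⟨hu1, fun c hc hcu => hmin c ⟨hc, hcu.le.trans hu2⟩ hcu⟩, hu2⟩

/-- three nodes: two of them decide -/
theorem three (hT : IsHausdorffTree T) (a b c : T) :
    (∀ x, x ≤ a → x ≤ b → x ≤ c) ∨ (∀ x, x ≤ a → x ≤ c → x ≤ b) := by
  by_contra hcon
  push Not at hcon
  obtain ⟨⟨x, hxa, hxb, hxc⟩, y, hya, hyc, hyb⟩ := hcon
  rcases hT.chain a x y hxa hya with h | h
  · exact hxc (h.trans hyc)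
  · exact hyb (h.trans hxb)

/-- `c` is the meet of `a` and `b` -/
def IsMeet (a b c : T) : Prop := ∀ x, x ≤ c ↔ x ≤ a ∧ x ≤ b

theorem isMeet_self (a : T) : IsMeet a a a := fun x => by simp

/-- the meets of the elements of `N` -/
def Meets (N : Set T) : Set T := {c | ∃ a ∈ N, ∃ b ∈ N, IsMeet a b c}

theorem subset_Meets (N : Set T) : N ⊆ Meets N := fun a ha => ⟨a, ha, a, ha, isMeet_self a⟩

theorem Meets_closed (hT : IsHausdorffTree T) {N : Set T} {c c' d : T} (hc : c ∈ Meets N)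
    (hc' : c' ∈ Meets N) (hd : IsMeet c c' d) : d ∈ Meets N := by
  obtain ⟨a, ha, b, hb, hm⟩ := hc
  obtain ⟨a', ha', b', hb', hm'⟩ := hc'
  have key : ∀ x, x ≤ d ↔ x ≤ a ∧ x ≤ b ∧ x ≤ a' ∧ x ≤ b' := by
    intro x
    rw [hd x, hm x, hm' x]
    tauto
  -- reduce three to two
  have h3 : ∃ p ∈ N, ∃ q ∈ N, ∀ x, (x ≤ a ∧ x ≤ b ∧ x ≤ a') ↔ (x ≤ p ∧ x ≤ q) := by
    rcases three hT a b a' with h | h
    · exact ⟨a, ha, b, hb, fun x => ⟨fun hx => ⟨hx.1, hx.2.1⟩, fun hx => ⟨hx.1, hx.2, h x hx.1 hx.2⟩⟩⟩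
    · exact ⟨a, ha, a', ha', fun x => ⟨fun hx => ⟨hx.1, hx.2.2⟩,
        fun hx => ⟨hx.1, h x hx.1 hx.2, hx.2⟩⟩⟩
  obtain ⟨p, hp, q, hq, hpq⟩ := h3
  rcases three hT p q b' with h | h
  · refine ⟨p, hp, q, hq, fun x => ?_⟩
    rw [key x]
    constructor
    · rintro ⟨h1, h2, h3, -⟩
      exact (hpq x).1 ⟨h1, h2, h3⟩
    · intro hx
      obtain ⟨h1, h2, h3⟩ := (hpq x).2 hx
      exact ⟨h1, h2, h3, h x hx.1 hx.2⟩
  · refine ⟨p, hp, b', hb', fun x => ?_⟩
    rw [key x]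
    constructor
    · rintro ⟨h1, h2, h3, h4⟩
      exact ⟨((hpq x).1 ⟨h1, h2, h3⟩).1, h4⟩
    · intro hx
      obtain ⟨h1, h2, h3⟩ := (hpq x).2 ⟨hx.1, h x hx.1 hx.2⟩
      exact ⟨h1, h2, h3, hx.2⟩

end order

section top

variable {T : Type*} [PartialOrder T] [τ : TopologicalSpace T]

/-- a compact set has maximal elements above each of its elements -/
theorem exists_maximal (hτ : IsTreeTopology T τ) {K : Set T} (hK : IsCompact K) {t : T}
    (ht : t ∈ K) : ∃ x ∈ K, t ≤ x ∧ ∀ y ∈ K, x ≤ y → y ≤ x := by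
  classical
  obtain ⟨D, hDK, hD⟩ := hK.elim_nhds_subcover (fun x => Set.Iic x)
    (fun x _ => (isOpen_Iic hτ x).mem_nhds (le_refl x))
  have hne : (D.filter fun d => t ≤ d).Nonempty := by
    obtain ⟨d, hd, htd⟩ := Set.mem_iUnion₂.1 (hD ht)
    exact ⟨d, Finset.mem_filter.2 ⟨hd, htd⟩⟩
  obtain ⟨x, hx⟩ := Finset.exists_maximal hne
  have hxm := Finset.mem_filter.1 hx.prop
  refine ⟨x, hDK x hxm.1, hxm.2, ?_⟩
  intro y hy hxy
  obtain ⟨d, hd, hyd⟩ := Set.mem_iUnion₂.1 (hD hy)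
  have hyd' : y ≤ d := hyd
  have h1 : d ∈ D.filter fun d => t ≤ d :=
    Finset.mem_filter.2 ⟨hd, (hxm.2.trans hxy).trans hyd'⟩
  exact hyd'.trans (hx.le_of_ge h1 (hxy.trans hyd'))

theorem exists_meet (hT : IsHausdorffTree T) (hτ : IsTreeTopology T τ) {a b t : T} (hta : t ≤ a)
    (htb : t ≤ b) : ∃ c, IsMeet a b c ∧ t ≤ c := by
  have hK : IsCompact (Set.Iic a ∩ Set.Iic b) :=
    (isCompact_Iic hT hτ a).inter_right (isClosed_Iic hT hτ b)
  obtain ⟨c, ⟨hca, hcb⟩, htc, hmax⟩ := exists_maximal hτ hK (show t ∈ Set.Iic a ∩ Set.Iic b from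
    ⟨hta, htb⟩)
  refine ⟨c, fun x => ⟨fun hx => ⟨hx.trans hca, hx.trans hcb⟩, fun hx => ?_⟩, htc⟩
  rcases hT.chain a x c hx.1 hca with h | h
  · exact h
  · exact hmax x ⟨hx.1, hx.2⟩ h

theorem path_mul (hT : IsHausdorffTree T) (hτ : IsTreeTopology T τ) {a b c : T}
    (h : IsMeet a b c) : path hT hτ a * path hT hτ b = path hT hτ c := by
  apply ZeroAtInftyContinuousMap.ext
  intro x
  show path hT hτ a x * path hT hτ b x = path hT hτ c x
  by_cases ha : x ≤ a
  · by_cases hb : x ≤ b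
    · rw [path_apply_of_le hT hτ ha, path_apply_of_le hT hτ hb,
        path_apply_of_le hT hτ ((h x).2 ⟨ha, hb⟩), mul_one]
    · rw [path_apply_of_not_le hT hτ hb, mul_zero,
        path_apply_of_not_le hT hτ fun hc => hb ((h x).1 hc).2]
  · rw [path_apply_of_not_le hT hτ ha, zero_mul,
        path_apply_of_not_le hT hτ fun hc => ha ((h x).1 hc).1]

theorem path_mul_zero (hT : IsHausdorffTree T) (hτ : IsTreeTopology T τ) {a b : T}
    (h : ∀ x, x ≤ a → ¬ x ≤ b) : path hT hτ a * path hT hτ b = 0 := by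
  apply ZeroAtInftyContinuousMap.ext
  intro x
  show path hT hτ a x * path hT hτ b x = 0
  by_cases ha : x ≤ a
  · rw [path_apply_of_not_le hT hτ (h x ha), mul_zero]
  · rw [path_apply_of_not_le hT hτ ha, zero_mul]

/-- the span of the paths to the meets -/
noncomputable def WW (hT : IsHausdorffTree T) (hτ : IsTreeTopology T τ) (N : Set T) :
    Submodule ℝ C₀(T, ℝ) := Submodule.span ℝ (path hT hτ '' Meets N)

theorem WW_mul (hT : IsHausdorffTree T) (hτ : IsTreeTopology T τ) (N : Set T) :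
    ∀ g ∈ WW hT hτ N, ∀ g' ∈ WW hT hτ N, g * g' ∈ WW hT hτ N := by
  intro g hg g' hg'
  induction hg using Submodule.span_induction with
  | mem x hx =>
    obtain ⟨c, hc, rfl⟩ := hx
    induction hg' using Submodule.span_induction with
    | mem y hy =>
      obtain ⟨c', hc', rfl⟩ := hy
      by_cases h : ∃ t, t ≤ c ∧ t ≤ c'
      · obtain ⟨t, h1, h2⟩ := h
        obtain ⟨d, hd, -⟩ := exists_meet hT hτ h1 h2
        rw [path_mul hT hτ hd]
        exact Submodule.subset_span ⟨d, Meets_closed hT hc hc' hd, rfl⟩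
      · push Not at h
        rw [path_mul_zero hT hτ h]
        exact Submodule.zero_mem _
    | zero =>
      rw [mul_zero]
      exact Submodule.zero_mem _
    | add y z _ _ ih1 ih2 =>
      rw [mul_add]
      exact Submodule.add_mem _ ih1 ih2
    | smul r y _ ih =>
      rw [mul_smul_comm]
      exact Submodule.smul_mem _ _ ih
  | zero =>
    rw [zero_mul]
    exact Submodule.zero_mem _
  | add y z _ _ ih1 ih2 =>
    rw [add_mul]
    exact Submodule.add_mem _ ih1 ih2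
  | smul r y _ ih =>
    rw [smul_mul_assoc]
    exact Submodule.smul_mem _ _ ih

/-- at a node without immediate predecessor a continuous function is determined from below -/
theorem limit_eq (hT : IsHausdorffTree T) (hτ : IsTreeTopology T τ) {f : T → ℝ}
    (hf : Continuous f) {s x : T} (hsx : s < x) (hx : ∀ c, ¬ c ⋖ x) {a : ℝ}
    (h : ∀ y, s ≤ y → y < x → f y = a) : f x = a := by
  have hcl : IsClosed {y | f y = a} := isClosed_eq hf continuous_const
  have hmem : x ∈ closure {y | f y = a} := by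
    rw [mem_closure_iff]
    intro O hO hxO
    have key : ∀ r, r < x → ∃ y, r < y ∧ y < x := by
      intro r hr
      by_contra hcon
      push Not at hcon
      exact hx r ⟨hr, fun c hc hcx => hcon c hc hcx⟩
    rcases exists_Ioc_subset hT hτ hO x hxO with g | ⟨r, hr, g⟩
    · exact ⟨s, g hsx.le, h s (le_refl s) hsx⟩
    · rcases hT.chain x r s hr.le hsx.le with h1 | h1
      · obtain ⟨y, hy1, hy2⟩ := key s hsx
        exact ⟨y, g ⟨lt_of_le_of_lt h1 hy1, hy2.le⟩, h y hy1.le hy2⟩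
      · obtain ⟨y, hy1, hy2⟩ := key r hr
        exact ⟨y, g ⟨hy1, hy2.le⟩, h y (h1.trans hy1.le) hy2⟩
  rwa [hcl.closure_eq] at hmem

end top

end Pool.Agent.H17.HS
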